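import Pool.Agent.Run7.h245.SR.Iface1

/-!
# Project MO: moments of 2-Selmer groups in families of all elliptic curves: interface

Project MO (helper245). Every part is a closed `Prop` with its proof in the comment. A part `S_XXX` is to be proved as
`theorem Pool.Agent.Run7.<seat>.MO.xxx : S_XXX` in a file `Pool/Agent/Run7/<seat>/MO/XXX.lean`
importing this one.
-/

set_option autoImplicit false
set_option linter.all false

open NumberField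
open scoped Classical

namespace Pool.Agent.Run7.h245.MO

open Pool.Agent.Run7.h245.SR (Sj)

/-- WIN. Many primes `q ≡ 1 mod 8` in a short interval.

Proof. `ρ > 0`, `x := 1 + ρ`. Suppose the claim fails for `ρ`, `W`, `m`. Then each window `[x ^ g, x ^ (g + 1))`, `g : ℕ`, contains less than `m`
primes `q ≡ 1 mod 8` with `W < q` (two elements `q`, `q'` of the window satisfy `q ≤ x q'`; a set with at least `m` elements
has a subset with `m` elements). So the sum of `log q / q` over the primes `q ≡ 1 mod 8`, `q > W`, is at most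
`∑_g m (g + 1) log x / x ^ g < ∞`, and the finitely many `q ≤ W` do not matter. This contradicts
`ArithmeticFunction.vonMangoldt.not_summable_residueClass_prime_div` (for `(1 : ZMod 8)`). (Alternatively: the sum over the
primes of the window, or `Nat.log`-like counting functions `g(q) = ⌊log q / log x⌋`, whose fibres have less than `m`
elements; `Summable` along a map with bounded fibres.) -/
def S_WIN : Prop := ∀ (ρ : ℝ), 0 < ρ → ∀ (W m : ℕ), ∃ S : Finset ℕ, S.card = m ∧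
  (∀ q ∈ S, q.Prime ∧ W < q ∧ q % 8 = 1) ∧ ∀ q ∈ S, ∀ q' ∈ S, (q : ℝ) ≤ (1 + ρ) * q'

/-- The sets consisting of one element of each of the levels `T 1`, ..., `T k` (if the levels are disjoint). -/
noncomputable def JJ {ι : Type} (T : ℕ → Finset ι) : ℕ → Finset (Finset ι)
  | 0 => {∅}
  | n + 1 => (JJ T n ×ˢ T (n + 1)).image fun p => insert p.2 p.1

/-- MOM. The moments. (`Sj Λ J = {l ∈ Λ : (l i).1 = 0 for i ∉ J, (l i).2 = 0 for i ∈ J}`, in `SR/Iface1.lean`.)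

Proof. (1) All members of `JJ T n` are contained in the union of `T 1, ..., T n`; as the levels are disjoint, the map
`(J, x) ↦ insert x J` is injective on `JJ T n × T (n + 1)` (`x` is the only element of level `n + 1`), so sums over
`JJ T (n + 1)` are double sums and `(JJ T (n + 1)).card = (JJ T n).card * (T (n + 1)).card`, all positive.

(2) Let `J ∈ JJ T n`, `n < k`, `V = Sj Λ J`, `v = |V|` (a power of two, as `V` is a finite group of exponent two), `x ∈ T (n + 1)`,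
`V' = Sj Λ (insert x J)`, `V_x = {l ∈ V : (l x).2 = 0}`. If `V_x ≠ V` then `V' = V_x`: if `l' ∈ V'` had `(l' x).1 = 1`, take `l ∈ V`
with `(l x).2 = 1`; then `l + l' ∈ Λ` but `∑ (l + l').1 * (l + l').2 = 1` (only the term of `x` is not zero; for `i ∉ insert x J` the
first components vanish, for `i ∈ J` the second ones). So then `|V'| = v / 2`. If `V_x = V` then `V ≤ V'` with index at most two
(`V` is the kernel of `l ↦ (l x).1` on `V'`), so `|V'| ≤ 2 v`.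

(3) The proportion `p` of the `x ∈ T (n + 1)` with `V_x = V` is at most `1 / v + 2 ε`: count pairs,
`∑_x |V_x| = |T (n + 1)| (p v + (1 - p) v / 2)`, and `∑_x |V_x| = ∑_{l ∈ V} #{x : (l x).2 = 0} ≤ |T (n + 1)| (1 + (v - 1) (1 / 2 + ε))` by
the last hypothesis (the first components of `l ∈ V` vanish outside `J`).

(4) Put `I_r(v) = ∏_{i < r} (v - 2 ^ i)`; it is `≥ 0` and increasing on powers of two (`0` for `v < 2 ^ r`, a power of two;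
all factors positive otherwise), `I_{r+1}(v) = I_r(v) (v - 2 ^ r)`, `I_r(2 v) - I_r(v / 2)`: with
`I_{r+1}(2 v) = 2 ^ r (2 v - 1) I_r(v)` and `(v - 1) I_{r+1}(v / 2) 2 ^ (r + 1) = I_{r + 1}(v) (v - 2 ^ (r + 1))` one has for `r ≥ 1`
`I_r(v / 2) + (1 / v) (I_r(2 v) - I_r(v / 2)) = 2 ^ (-r) I_r(v) + (2 ^ r - 1) I_{r-1}(v)` (also for `v = 1`, where only
`I_r(v / 2) (1 - 1 / v)` occurs). So the mean of `I_r(|V'|)` over `x ∈ T (n + 1)` is at most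
`2 ^ (-r) I_r(v) + (2 ^ r - 1) I_{r-1}(v) + 2 ε (2 v) ^ r`.

(5) `|Sj Λ ∅| ≤ 2 ^ n₀` by the hypothesis on `T 0` (the map to the second components on `T 0` is injective), so
`|Sj Λ J| ≤ 2 ^ (n₀ + k)` for all `J ∈ JJ T n`, `n ≤ k`. Let `a_r(n)` be the mean of `I_r(|Sj Λ J|)` over `JJ T n`. Then `a_0(n) = 1`,
`a_r(0) ≤ 2 ^ (n₀ r)` and for `r ≥ 1`, `n < k`, `a_r(n + 1) ≤ 2 ^ (-r) a_r(n) + (2 ^ r - 1) a_{r-1}(n) + κ` with
`κ = 2 ε 2 ^ ((n₀ + k + 1) R)`. With `m_r = 2 ^ (r (r + 1) / 2)` (fixed point: `m_r = 2 ^ r m_{r-1}`) one gets by induction on `r`, then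
on `n`: `a_r(n) ≤ m_r + C_r (3 / 4) ^ n + C_r κ`, where `C_0 = 1`, `C_r = max (2 ^ (n₀ r)) (4 (2 ^ r - 1) C_{r-1} + 4)` do not depend on `k`,
`ε`. First choose `k` with `C_r (3 / 4) ^ k ≤ δ / 2` for all `r ≤ R`, then `ε`. -/
def S_MOM : Prop := ∀ (R n₀ : ℕ) (δ : ℝ), 0 < δ → ∃ (k : ℕ) (ε : ℝ), 0 < ε ∧
  ∀ (ι : Type) [Fintype ι] (Λ : AddSubgroup (ι → ZMod 2 × ZMod 2)) (T : ℕ → Finset ι),
  (∀ l ∈ Λ, ∑ i, (l i).1 * (l i).2 = 0) →
  (∀ i ≤ k, ∀ j ≤ k, i ≠ j → Disjoint (T i) (T j)) →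
  (∀ j, 1 ≤ j → j ≤ k → (T j).Nonempty) → (T 0).card ≤ n₀ →
  (∀ l ∈ Λ, (∀ i, (l i).1 = 0) → (∀ i ∈ T 0, (l i).2 = 0) → l = 0) →
  (∀ j, 1 ≤ j → j ≤ k → ∀ l ∈ Λ, l ≠ 0 → (∀ i, (∀ m < j, i ∉ T m) → (l i).1 = 0) →
    (((T j).filter fun i => (l i).2 = 0).card : ℝ) ≤ (1 / 2 + ε) * (T j).card) →
  ∀ r ≤ R, ∑ J ∈ JJ T k, ∏ i ∈ Finset.range r, ((Nat.card (Sj Λ J) : ℝ) - 2 ^ i) ≤
    (2 ^ (r * (r + 1) / 2) + δ) * (JJ T k).card

/-- The height `max_σ max (4 |σ a|³, 27 |σ b|²)` is at most `X`. -/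
def Hg {F : Type} [Field F] [NumberField F] (X : ℝ) : Set (𝓞 F × 𝓞 F) :=
  {p | ∀ σ : F →+* ℂ, 4 * ‖σ (p.1 : F)‖ ^ 3 ≤ X ∧ 27 * ‖σ (p.2 : F)‖ ^ 2 ≤ X}

/-- The pairs in a residue class. -/
def Cl {F : Type} [Field F] [NumberField F] (m : ℕ) (A B : 𝓞 F) : Set (𝓞 F × 𝓞 F) :=
  {p | (m : 𝓞 F) ∣ p.1 - A ∧ (m : 𝓞 F) ∣ p.2 - B}

/-- SHL. The number of pairs of a residue class grows regularly with the height; `lam` does not depend on the class.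

Proof. Put `n = [F : ℚ]`, `c(T) = #{a ∈ 𝓞 F : m ∣ a - A, ‖σ a‖ ≤ T for all σ : F →+* ℂ}`. Claim: `c(T) / T ^ n` converges to a positive
number for `T → ∞`. Then `#(Cl m A B ∩ Hg Y) = c_A((Y / 4) ^ (1 / 3)) c_B((Y / 27) ^ (1 / 2))` divided by `Y ^ (5 n / 6)` converges to a
positive number, so the quotient of the numbers for `lam * Y` and `Y` converges to `lam ^ (5 n / 6)`; choose
`lam > 1` with `lam ^ (5 n / 6) < 1 + ρ`.
Proof of the claim: the image `L` of `m 𝓞 F` in `mixedEmbedding.mixedSpace F` (`NumberField.mixedEmbedding`, e.g.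
`mixedEmbedding.integerLattice`, or `latticeBasis`) is a full lattice, and `N(T) = #{l ∈ L : ‖l‖ ≤ T} ~ c T ^ n` by
`ZLattice.covolume.tendsto_card_le_div` (or `tendsto_card_div_pow`, `tendsto_card_le_div'`; the norm of the mixed space is the
maximum of the `‖σ a‖`), or by a direct argument. For the class `A + m 𝓞 F`: `N(T - C) ≤ c(T) ≤ N(T + C)` with
`C = max ‖σ A‖`. (Any other proof of the claim is fine, e.g. without volumes: `c(T)` is almost multiplicative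
under subdivision.) -/
def S_SHL : Prop := ∀ (F : Type) [Field F] [NumberField F] (ρ : ℝ), 0 < ρ → ∃ lam : ℝ, 1 < lam ∧
  ∀ (m : ℕ) (A B : 𝓞 F), 0 < m →
    (∀ Y : ℝ, (Cl m A B ∩ Hg Y).Finite) ∧
    (∀ᶠ Y : ℝ in Filter.atTop, 0 < (Cl m A B ∩ Hg Y).ncard) ∧
    ∀ᶠ Y : ℝ in Filter.atTop, ((Cl m A B ∩ Hg (lam * Y)).ncard : ℝ) ≤
      (1 + ρ) * ((Cl m A B ∩ Hg Y).ncard : ℝ)

/-- ASM. The counting. `C` is a class, `Bd` the bad elements, `tw j` the twist with index `j`, `D j` the factor of the height,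
`Mn` the minimal elements.

Proof. Put `N(Y) = #(C ∩ H Y)`, `U(X)` the first set below, `G(X)` the second one. `G(X) ⊆ U(X)`, and `U(X)` is contained in the union of the
`tw j '' (C ∩ H (X / D j))`, so it is finite and `#U(X) ≤ ∑_j N(X / D j)`. For large `X` (`X / D j → ∞`; finitely many `j`):
`#G(X) = ∑_j #(C \ Bd ∩ H (X / D j)) ≥ (1 - δ₁) ∑_j N(X / D j)` (injectivity of `(j, a) ↦ tw j a`). This gives the second claim,
and `#U(X) ≥ (1 - δ₁) ∑_j N(X / D j)`. Let `i ∈ J` have the smallest `D i`. Then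
`∑_{p ∈ G(X)} g r p = ∑_j ∑_{a ∈ C \ Bd, a ∈ H (X / D j)} g r (tw j a) ≤ ∑_{a ∈ C \ Bd, a ∈ H (X / D i)} ∑_j g r (tw j a) ≤
N(X / D i) (M r) |J|`, and `N(X / D i) ≤ N(lam * (X / D j)) ≤ (1 + ρ) N(X / D j)` for all `j`, so
`N(X / D i) |J| ≤ (1 + ρ) ∑_j N(X / D j)`. Multiply with `1 - δ₁ ≥ 0`. -/
def S_ASM : Prop := ∀ (α ι : Type) (H : ℝ → Set α) (C Bd Mn : Set α) (J : Finset ι) (D : ι → ℝ)
  (tw : ι → α → α) (R : ℕ) (g : ℕ → α → ℝ) (M : ℕ → ℝ) (δ₁ ρ lam : ℝ), J.Nonempty → 0 ≤ δ₁ → δ₁ ≤ 1 →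
  0 ≤ ρ → (∀ r ≤ R, 0 ≤ M r) →
  (∀ X Y : ℝ, X ≤ Y → H X ⊆ H Y) → (∀ Y : ℝ, (C ∩ H Y).Finite) → (∀ j ∈ J, 0 < D j) →
  (∀ i ∈ J, ∀ j ∈ J, D i ≤ lam * D j) →
  (∀ j ∈ J, ∀ a ∈ C, ∀ X : ℝ, tw j a ∈ H X ↔ a ∈ H (X / D j)) →
  (∀ i ∈ J, ∀ j ∈ J, ∀ a ∈ C, ∀ b ∈ C, tw i a = tw j b → i = j ∧ a = b) →
  (∀ᶠ Y : ℝ in Filter.atTop, ((C ∩ H Y ∩ Bd).ncard : ℝ) ≤ δ₁ * ((C ∩ H Y).ncard : ℝ)) →
  (∀ᶠ Y : ℝ in Filter.atTop, ((C ∩ H (lam * Y)).ncard : ℝ) ≤ (1 + ρ) * ((C ∩ H Y).ncard : ℝ)) →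
  (∀ j ∈ J, ∀ a ∈ C, a ∉ Bd → tw j a ∈ Mn) →
  (∀ r ≤ R, ∀ a ∈ C, a ∉ Bd → (∀ j ∈ J, 0 ≤ g r (tw j a)) ∧ ∑ j ∈ J, g r (tw j a) ≤ M r * J.card) →
  ∀ᶠ X : ℝ in Filter.atTop,
    {p | p ∈ Mn ∧ p ∈ H X ∧ ∃ j ∈ J, ∃ a ∈ C, tw j a = p}.Finite ∧
    (1 - δ₁) * ({p | p ∈ Mn ∧ p ∈ H X ∧ ∃ j ∈ J, ∃ a ∈ C, tw j a = p}.ncard : ℝ) ≤
      ({p | p ∈ H X ∧ ∃ j ∈ J, ∃ a ∈ C, a ∉ Bd ∧ tw j a = p}.ncard : ℝ) ∧
    ∀ r ≤ R, (1 - δ₁) * ∑ᶠ p ∈ {p | p ∈ H X ∧ ∃ j ∈ J, ∃ a ∈ C, a ∉ Bd ∧ tw j a = p}, g r p ≤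
      (1 + ρ) * M r * ({p | p ∈ Mn ∧ p ∈ H X ∧ ∃ j ∈ J, ∃ a ∈ C, tw j a = p}.ncard : ℝ)

end Pool.Agent.Run7.h245.MO
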