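import Pool.Agent.Run7.h245.MO.As

/-!
# Moments in a family of all curves: the theorem
-/

set_option autoImplicit false
set_option linter.all false

open Polynomial IsDedekindDomain Matrix NumberField WithZero
open scoped Classical

namespace Pool.Agent.Run7.h245.MO

open Pool.Agent.N951.PF
open Pool.Agent.N874.PP (sW)
open Pool.Agent.N352.PJ (dd pol dis Dy D2)
open Pool.Agent.N352.PF (dg Bal nv rv Bz Bx S_BX)
open Pool.Agent.N783.PF (Bd Cg sp rd Ht GoodS GoodF Fam S_FAM LBad SqF Dp Min fF)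
open Pool.Agent.Run7.h245.SR

/-- The members of the family of all curves. -/
def Mn (F : Type) [Field F] [NumberField F] : Set (𝓞 F × 𝓞 F) :=
  {p | 4 * p.1 ^ 3 + 27 * p.2 ^ 2 ≠ 0 ∧
    ∀ 𝔭 : Ideal (𝓞 F), 𝔭.IsPrime → 𝔭 ≠ ⊥ → ¬ (p.1 ∈ 𝔭 ^ 4 ∧ p.2 ∈ 𝔭 ^ 6)}

/-- The order of the 2-Selmer group. -/
noncomputable def sl {F : Type} [Field F] [NumberField F] (p : 𝓞 F × 𝓞 F) : ℕ :=
  Nat.card (Sel2 F (sW (p.1 : F) (p.2 : F)))

/-- The number of tuples of `r` linearly independent elements. -/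
noncomputable def gr {F : Type} [Field F] [NumberField F] (r : ℕ) (p : 𝓞 F × 𝓞 F) : ℝ :=
  ∏ i ∈ Finset.range r, ((sl p : ℝ) - 2 ^ i)

/-- The part of the family of height at most `X`. -/
def Up {F : Type} [Field F] [NumberField F] (𝔉 : Set (𝓞 F × 𝓞 F)) (X : ℝ) : Set (𝓞 F × 𝓞 F) :=
  {p | p ∈ Mn F ∧ p ∈ Hg X ∧ p ∈ 𝔉}

/-- The twist of a good curve. -/
theorem good_twp {F : Type} [Field F] [NumberField F] {R n₀ k W : ℕ} {δ ε : ℝ}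
    (hmom : MomC R n₀ δ k ε) {T : ℕ → Finset ℕ} {𝔮 : ℕ → Ideal (𝓞 F)} {r P : ℕ → (𝓞 F)[X]}
    {ε' : ℕ → ℝ}
    (hS : GoodS 1 W ((Finset.range (k + 1)).biUnion T) 𝔮 r P)
    (hdj : ∀ i < k + 1, ∀ j < k + 1, i ≠ j → Disjoint (T i) (T j))
    (hne : ∀ j < k + 1, (T j).Nonempty) (h0 : (T 0).card ≤ n₀)
    (hε0 : ε' 0 ≤ 1 / 4) (hεj : ∀ j, 1 ≤ j → j ≤ k → ε' j ≤ ε) {p : 𝓞 F × 𝓞 F}
    (hf : GdP W (k + 1) T 𝔮 P ε' (pol (cf p))) :
    (∀ J ∈ JJ T k, twp J p ∈ Mn F ∧ (∃ d : ℕ, sl (twp J p) = 2 ^ d) ∧ ∀ r, 0 ≤ gr r (twp J p)) ∧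
      ∀ r ≤ R, ∑ J ∈ JJ T k, gr r (twp J p) ≤ (2 ^ (r * (r + 1) / 2) + δ) * (JJ T k).card := by
  obtain ⟨d, h1, h2⟩ := pmom hmom hS hdj hne h0 hε0 hεj hf
  have c1 : (pol (cf p)).coeff 1 = p.1 := pol_coeff_lt (cf p) 1
  have c0 : (pol (cf p)).coeff 0 = p.2 := pol_coeff_lt (cf p) 0
  have c2 : (pol (cf p)).coeff 2 = 0 := pol_coeff_tr (g := 1) (cf p)
  have hirr : Irreducible (cb (p.1 : F) (p.2 : F)) := by
    have e := fF_cub (pol_monic (cf p)) (pol_natDegree (cf p)) c2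
    rw [c1, c0] at e
    rw [← e]
    exact hf.irr
  rw [c1, c0] at h1
  have hcast : ∀ J : Finset ℕ, ((twp J p).1 : F) = (p.1 : F) * ((Dp J : ℕ) : F) ^ 2 ∧
      ((twp J p).2 : F) = (p.2 : F) * ((Dp J : ℕ) : F) ^ 3 := by
    intro J
    constructor
    · show algebraMap (𝓞 F) F (p.1 * ((Dp J : ℕ) : 𝓞 F) ^ 2) = _
      rw [map_mul, map_pow, map_natCast]
    · show algebraMap (𝓞 F) F (p.2 * ((Dp J : ℕ) : 𝓞 F) ^ 3) = _
      rw [map_mul, map_pow, map_natCast]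
  have hDne : ∀ J ∈ JJ T k, ((Dp J : ℕ) : F) ≠ 0 := by
    intro J hJ
    have : Dp J ≠ 0 := by
      unfold Dp
      rw [Finset.prod_ne_zero_iff]
      exact fun q hq => (hS q (jj_sub hJ hq)).1.ne_zero
    exact Nat.cast_ne_zero.2 this
  have hsl : ∀ J ∈ JJ T k, sl (twp J p) = 2 ^ d J := by
    intro J hJ
    have hirrD := irr_cb (hDne J hJ) hirr
    unfold sl
    rw [(hcast J).1, (hcast J).2]
    exact seld F _ _ (d J) (disc_cb hirrD) hirrD (h1 J hJ)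
  have hgr : ∀ J ∈ JJ T k, ∀ r, gr r (twp J p) = ∏ i ∈ Finset.range r, ((2 : ℝ) ^ d J - 2 ^ i) := by
    intro J hJ r
    unfold gr
    rw [hsl J hJ]
    push_cast
    rfl
  refine ⟨fun J hJ => ⟨⟨?_, ?_⟩, ⟨d J, hsl J hJ⟩, fun r => ?_⟩, fun r hr => ?_⟩
  · intro hz
    have hirrD := irr_cb (hDne J hJ) hirr
    refine disc_cb hirrD ?_
    have e := congrArg (algebraMap (𝓞 F) F) hz
    rw [map_add, map_mul, map_mul, map_pow, map_pow, map_ofNat, map_ofNat, map_zero] at e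
    rw [← (hcast J).1, ← (hcast J).2]
    exact e
  · rintro 𝔭 hp hb ⟨g1, g2⟩
    have hmin := Pool.Agent.N547.PF.min 1 W F _ J 𝔮 r P (pol (cf p)) le_rfl hS hf.sqf hf.mon hf.deg
      hf.con (jj_sub hJ)
    refine hmin 𝔭 hp hb fun j hj => ?_
    rw [coeff_scaleRoots, hf.deg]
    interval_cases j
    · rw [c0]
      exact g2
    · rw [c1]
      exact g1
    · rw [c2, zero_mul]
      exact Ideal.zero_mem _
  · rw [hgr J hJ r]
    exact Pool.Agent.Run7.h216.MO.Ip_nonneg r (d J)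
  · rw [Finset.sum_congr rfl fun J hJ => hgr J hJ r]
    exact h2 r hr

/-- The constants. -/
theorem consts (R : ℕ) {δ : ℝ} (hδ : 0 < δ) : ∃ t : ℝ, 0 < t ∧ t ≤ 1 / 2 ∧ t ≤ δ ∧ ∀ r ≤ R,
    (1 + t) * ((2 : ℝ) ^ (r * (r + 1) / 2) + δ / 4) ≤ (1 - t) * (2 ^ (r * (r + 1) / 2) + δ) := by
  obtain ⟨M, hM⟩ : ∃ M : ℝ, M = 2 ^ (R * (R + 1) / 2) := ⟨_, rfl⟩
  have hM1 : 0 < M := by rw [hM]; positivity
  refine ⟨min (δ / (4 * (M + δ))) (min δ (1 / 2)), ?_, ?_, ?_, ?_⟩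
  · exact lt_min (by positivity) (lt_min hδ (by norm_num))
  · exact (min_le_right _ _).trans (min_le_right _ _)
  · exact (min_le_right _ _).trans (min_le_left _ _)
  · intro r hr
    obtain ⟨t, ht⟩ : ∃ t, t = min (δ / (4 * (M + δ))) (min δ (1 / 2)) := ⟨_, rfl⟩
    rw [← ht]
    have ht0 : 0 < t := by
      rw [ht]
      exact lt_min (by positivity) (lt_min hδ (by norm_num))
    have h1 : t * (4 * (M + δ)) ≤ δ := by
      have : t ≤ δ / (4 * (M + δ)) := by rw [ht]; exact min_le_left _ _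
      rwa [le_div_iff₀ (by positivity)] at this
    have h2 : (2 : ℝ) ^ (r * (r + 1) / 2) ≤ M := by
      rw [hM]
      exact pow_le_pow_right₀ (by norm_num) (Nat.div_le_div_right (Nat.mul_le_mul hr (by omega)))
    nlinarith

/-- **The moments.** -/
theorem momF (F : Type) [Field F] [NumberField F] (R : ℕ) (δ : ℝ) (hδ : 0 < δ) :
    ∃ (m : ℕ) (𝔉 : Set (𝓞 F × 𝓞 F)), 0 < m ∧
      (∀ p ∈ 𝔉, ∀ p' : 𝓞 F × 𝓞 F, (m : 𝓞 F) ∣ p'.1 - p.1 → (m : 𝓞 F) ∣ p'.2 - p.2 → p' ∈ 𝔉) ∧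
      ∀ᶠ X : ℝ in Filter.atTop, (Up 𝔉 X).Finite ∧ 0 < (Up 𝔉 X).ncard ∧
        ∃ G : Set (𝓞 F × 𝓞 F), G ⊆ Up 𝔉 X ∧ (1 - δ) * ((Up 𝔉 X).ncard : ℝ) ≤ (G.ncard : ℝ) ∧
          (∀ p ∈ G, ∃ d : ℕ, sl p = 2 ^ d) ∧
          ∀ r ≤ R, ∑ᶠ p ∈ G, gr r p ≤ (2 ^ (r * (r + 1) / 2) + δ) * ((Up 𝔉 X).ncard : ℝ) := by
  obtain ⟨t, ht0, ht2, htδ, ht⟩ := consts R hδ
  obtain ⟨C, hC, htr⟩ := trans F
  obtain ⟨lam, hlam, hshl⟩ := Pool.Agent.Run7.h688.MO.shl F t ht0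
  obtain ⟨W, s, η₁, hW0, hη₁, hcnt⟩ := cnt F (t / C) (by positivity)
  obtain ⟨η, hη⟩ : ∃ η : ℕ → ℝ, η = fun k => η₁ / 2 ^ (k + 1) := ⟨_, rfl⟩
  have hηp : ∀ k, 0 < η k := fun k => by rw [hη]; positivity
  have hηs : ∀ K, ∑ k ∈ Finset.range K, η k ≤ η₁ := by
    intro K
    have e : ∀ K, ∑ k ∈ Finset.range K, η k = η₁ - η₁ / 2 ^ K := by
      intro K
      induction K with
      | zero => simp
      | succ K ih =>
        rw [Finset.sum_range_succ, ih, hη]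
        simp only
        rw [pow_succ]
        field_simp
        ring
    rw [e K]
    have : 0 < η₁ / 2 ^ K := by positivity
    linarith
  obtain ⟨n₁, hn₁⟩ : ∃ n₁ : ℕ → ℕ, n₁ = fun _ => max s 1 := ⟨_, rfl⟩
  -- the first level
  obtain ⟨T₀, Wk₀, 𝔮₀, r₀, P₀, H₀, -⟩ := lvx_ext (F := F) prx levb Pool.Agent.N710.PF.exs hηp
    (fun _ => (by norm_num : (0 : ℝ) < 1 / 4)) (fun _ => (by norm_num : (1 / 4 : ℝ) < 1 / 2))
    (lvx_zero (F := F) (η := η) (ε := fun _ => 1 / 4) (n₀ := n₁) (W₀ := W)) 1 (Nat.zero_le _)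
  obtain ⟨k, ε, hε, hmom⟩ := Pool.Agent.Run7.h216.MO.mom R (T₀ 0).card (δ / 4) (by positivity)
  obtain ⟨ε', hε'⟩ : ∃ ε' : ℕ → ℝ, ε' = fun j => if j = 0 then 1 / 4 else min ε (1 / 4) := ⟨_, rfl⟩
  have hε'p : ∀ j, 0 < ε' j := by
    intro j
    rw [hε']
    simp only
    split_ifs
    · norm_num
    · exact lt_min hε (by norm_num)
  have hε'2 : ∀ j, ε' j < 1 / 2 := by
    intro j
    rw [hε']
    simp only
    split_ifs
    · norm_num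
    · exact lt_of_le_of_lt (min_le_right _ _) (by norm_num)
  have H₁ : LvX F η ε' n₁ W 1 T₀ Wk₀ 𝔮₀ r₀ P₀ := H₀.congr (fun _ _ => rfl)
    (fun j hj => by
      have : j = 0 := by omega
      rw [hε', this]
      simp) (fun _ _ => rfl)
  -- the width of the windows
  obtain ⟨ρ, hρ, hρ6⟩ : ∃ ρ : ℝ, 0 < ρ ∧ ((1 + ρ) ^ k) ^ 6 ≤ lam := by
    have hcont : Filter.Tendsto (fun x : ℝ => ((1 + x) ^ k) ^ 6) (nhdsWithin 0 (Set.Ioi 0))
        (nhds (((1 + 0) ^ k) ^ 6)) := by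
      have : Continuous fun x : ℝ => ((1 + x) ^ k) ^ 6 := by fun_prop
      exact (this.tendsto 0).mono_left nhdsWithin_le_nhds
    rw [add_zero, one_pow, one_pow] at hcont
    have h1 := hcont.eventually (eventually_lt_nhds hlam)
    obtain ⟨ρ, h2, h3⟩ := (h1.and self_mem_nhdsWithin).exists
    exact ⟨ρ, h3, h2.le⟩
  obtain ⟨T, Wk, 𝔮, r, P, H, hT0, hwin⟩ := lvw_ext prx levb Pool.Agent.Run7.h216.MO.win hρ hηp hε'p
    hε'2 H₁ (k + 1) (by omega)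
  have hcard : ∀ j < k + 1, n₁ j ≤ (T j).card := fun j hj => (H.dat j hj).big
  have hne : ∀ j < k + 1, (T j).Nonempty := fun j hj => by
    rw [← Finset.card_pos]
    have h1 := hcard j hj
    rw [hn₁] at h1
    exact lt_of_lt_of_le (lt_of_lt_of_le one_pos (le_max_right s 1)) h1
  obtain ⟨A, B₀, hB₀⟩ := hcnt (k + 1) T Wk 𝔮 r P η ε' n₁ H hηp (hηs _) (by
    have h1 := hcard 0 (Nat.succ_pos k)
    rw [hn₁] at h1
    refine ((le_max_left s 1).trans h1).trans (Finset.card_le_card ?_)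
    exact fun q hq => Finset.mem_biUnion.2 ⟨0, Finset.mem_range.2 (Nat.succ_pos k), hq⟩)
  have hS := H.good_all
  have hdj := H.disj
  obtain ⟨S, hSd⟩ : ∃ S, S = (Finset.range (k + 1)).biUnion T := ⟨_, rfl⟩
  obtain ⟨m, hm⟩ : ∃ m, m = W * ∏ q ∈ S, q := ⟨_, rfl⟩
  rw [← hSd] at hS hB₀
  rw [← hm] at hB₀
  have hm0 : 0 < m := by
    rw [hm]
    exact Nat.mul_pos hW0 (Finset.prod_pos fun q hq => (hS q hq).1.pos)
  have hDpos : ∀ J ∈ JJ T k, 0 < Dp J := by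
    intro J hJ
    unfold Dp
    exact Finset.prod_pos fun q hq => (hS q (by rw [hSd]; exact jj_sub hJ hq)).1.pos
  have hDm : ∀ J ∈ JJ T k, Dp J ∣ m := by
    intro J hJ
    rw [hm]
    refine Dvd.dvd.mul_left ?_ W
    unfold Dp
    exact Finset.prod_dvd_prod_of_subset _ _ _ (by rw [hSd]; exact jj_sub hJ)
  obtain ⟨Bad, hBad⟩ : ∃ Bad : Set (𝓞 F × 𝓞 F), Bad = {p | ¬ GdP W (k + 1) T 𝔮 P ε' (pol (cf p))} :=
    ⟨_, rfl⟩
  have hbadev := htr m A Bad (t / C) B₀ hm0 (by positivity) (fun B hB => by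
    have h1 := (hB₀ B hB).2
    refine le_trans (le_of_eq ?_) h1
    congr 2
    refine congrArg Set.ncard ?_
    ext a
    rw [hBad]
    show _ ∧ ¬ GdP W (k + 1) T 𝔮 P ε' (pol (cf (a 1, a 0))) ↔ _
    rw [cf_mk]
    rfl)
  have hCt : C * (t / C) = t := by field_simp
  rw [hCt] at hbadev
  obtain ⟨hfin, hposev, hshell⟩ := hshl m (A 1) (A 0) hm0
  -- all members of the class satisfy the congruences
  have hgood1 : ∃ p ∈ Cl m (A 1) (A 0), p ∉ Bad := by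
    obtain ⟨X, h1, h2, h3⟩ := hbadev.exists
    by_contra hcon
    push Not at hcon
    have h4 : Cl m (A 1) (A 0) ∩ Hg X ∩ Bad = Cl m (A 1) (A 0) ∩ Hg X := by
      ext p
      exact ⟨fun h => h.1, fun h => ⟨h, hcon p h.1⟩⟩
    rw [h4] at h3
    have h5 : (0 : ℝ) < ((Cl m (A 1) (A 0) ∩ Hg X).ncard : ℝ) := by exact_mod_cast h2
    nlinarith
  have hCg : ∀ p ∈ Cl m (A 1) (A 0), ∀ q ∈ S, Cg (sp F q) (pol (cf p)) (P q) := by
    obtain ⟨p₀, hp₀, hgd⟩ := hgood1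
    rw [hBad] at hgd
    have hgd' : GdP W (k + 1) T 𝔮 P ε' (pol (cf p₀)) := not_not.1 hgd
    intro p hp q hq j
    have h1 := hgd'.con q (by rw [← hSd]; exact hq) j
    have h2 : (pol (cf p)).coeff j - (pol (cf p₀)).coeff j ∈ sp F q := by
      rw [Ideal.mem_span_singleton]
      have hqm : (q : 𝓞 F) ∣ (m : 𝓞 F) := by
        refine Nat.cast_dvd_cast ?_
        rw [hm]
        exact Dvd.dvd.mul_left (Finset.dvd_prod_of_mem (fun q => q) hq) W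
      rw [pol_coeff, pol_coeff]
      by_cases hj3 : j = 2 * 1 + 1
      · rw [if_pos hj3, if_pos hj3, sub_self]
        exact dvd_zero _
      · rw [if_neg hj3, if_neg hj3]
        by_cases hj : j < 2 * 1
        · rw [dif_pos hj, dif_pos hj]
          have hcls : ∀ i : Fin (2 * 1), (m : 𝓞 F) ∣ cf p i - cf p₀ i := by
            intro i
            fin_cases i
            · show (m : 𝓞 F) ∣ p.2 - p₀.2
              have e : p.2 - p₀.2 = (p.2 - A 0) - (p₀.2 - A 0) := by ring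
              rw [e]
              exact dvd_sub hp.2 hp₀.2
            · show (m : 𝓞 F) ∣ p.1 - p₀.1
              have e : p.1 - p₀.1 = (p.1 - A 1) - (p₀.1 - A 1) := by ring
              rw [e]
              exact dvd_sub hp.1 hp₀.1
          exact hqm.trans (hcls _)
        · rw [dif_neg hj, dif_neg hj, sub_self]
          exact dvd_zero _
    have e : (pol (cf p)).coeff j - (P q).coeff j =
        ((pol (cf p)).coeff j - (pol (cf p₀)).coeff j) + ((pol (cf p₀)).coeff j - (P q).coeff j) := by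
      ring
    rw [e]
    exact add_mem h2 h1
  -- the good curves
  have hgd : ∀ p, p ∉ Bad → (∀ J ∈ JJ T k, twp J p ∈ Mn F ∧ (∃ d : ℕ, sl (twp J p) = 2 ^ d) ∧
      ∀ r, 0 ≤ gr r (twp J p)) ∧
      ∀ r ≤ R, ∑ J ∈ JJ T k, gr r (twp J p) ≤ (2 ^ (r * (r + 1) / 2) + δ / 4) * (JJ T k).card := by
    intro p hp
    rw [hBad] at hp
    refine good_twp (n₀ := (T₀ 0).card) (ε := ε) (R := R) (fun ι _ Λ T' => hmom ι Λ T') (by rw [← hSd]; exact hS) hdj hne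
      (by rw [hT0 0 (by omega)]) ?_ ?_ (not_not.1 hp)
    · rw [hε']
      simp
    · intro j hj1 hjk
      rw [hε']
      simp only
      rw [if_neg (by omega)]
      exact min_le_left _ _
  have hJne : (JJ T k).Nonempty := jj_nonempty k le_rfl hne
  have hinj : ∀ J ∈ JJ T k, ∀ J' ∈ JJ T k, ∀ a ∈ Cl m (A 1) (A 0), ∀ b ∈ Cl m (A 1) (A 0),
      twp J a = twp J' b → J = J' ∧ a = b := by
    intro J hJ J' hJ' a ha b hb h
    refine twp_inj (W := W) (𝔮 := 𝔮) (r := r) (P := P) (by rw [← hSd]; exact hS)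
      (C := Cl m (A 1) (A 0)) (fun p hp q hq => hCg p hp q (by rw [hSd]; exact hq)) hJ hJ' ha hb h
  have hasm := Pool.Agent.Run7.h688.MO.asm (𝓞 F × 𝓞 F) (Finset ℕ) Hg (Cl m (A 1) (A 0)) Bad (Mn F)
    (JJ T k) (fun J => ((Dp J : ℕ) : ℝ) ^ 6) twp R gr (fun r => 2 ^ (r * (r + 1) / 2) + δ / 4) t t lam
    hJne ht0.le (by linarith) ht0.le (fun r _ => by positivity) (fun X Y h => hg_mono h) hfin
    (fun J hJ => by
      have : (0 : ℝ) < ((Dp J : ℕ) : ℝ) := by exact_mod_cast hDpos J hJ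
      positivity)
    (fun J hJ J' hJ' => by
      have h1 := jj_ratio hρ.le hdj (fun j h1 h2 => hwin j h1 h2) k le_rfl J hJ J' hJ'
      have h2 := pow_le_pow_left₀ (Nat.cast_nonneg _) h1 6
      rw [mul_pow] at h2
      refine h2.trans (mul_le_mul_of_nonneg_right hρ6 (by positivity)))
    (fun J hJ a _ X => twp_hg (hDpos J hJ) a X) hinj
    (hbadev.mono fun Y hY => hY.2.2) hshell
    (fun J hJ a _ ha => ((hgd a ha).1 J hJ).1)
    (fun r hr a _ ha => ⟨fun J hJ => ((hgd a ha).1 J hJ).2.2 r, (hgd a ha).2 r hr⟩)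
  obtain ⟨𝔉, h𝔉⟩ : ∃ 𝔉 : Set (𝓞 F × 𝓞 F), 𝔉 = {p | ∃ J ∈ JJ T k, ∃ a ∈ Cl m (A 1) (A 0),
      twp J a = p} := ⟨_, rfl⟩
  have hUp : ∀ X, Up 𝔉 X = {p | p ∈ Mn F ∧ p ∈ Hg X ∧ ∃ J ∈ JJ T k, ∃ a ∈ Cl m (A 1) (A 0),
      twp J a = p} := by
    intro X
    rw [h𝔉]
    rfl
  refine ⟨m ^ 4, 𝔉, pow_pos hm0 4, ?_, ?_⟩
  · intro p hp p' h1 h2
    rw [h𝔉] at hp ⊢
    obtain ⟨J, hJ, a, ha, rfl⟩ := hp
    obtain ⟨c, hc⟩ := hDm J hJ
    obtain ⟨x, hx⟩ := h1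
    obtain ⟨y, hy⟩ := h2
    have hmc : (m : 𝓞 F) = ((Dp J : ℕ) : 𝓞 F) * (c : 𝓞 F) := by
      rw [hc]
      push_cast
      ring
    refine ⟨J, hJ, (a.1 + (m : 𝓞 F) * ((m : 𝓞 F) * (c : 𝓞 F) ^ 2 * x),
      a.2 + (m : 𝓞 F) * ((c : 𝓞 F) ^ 3 * y)), ⟨?_, ?_⟩, ?_⟩
    · show (m : 𝓞 F) ∣ a.1 + (m : 𝓞 F) * ((m : 𝓞 F) * (c : 𝓞 F) ^ 2 * x) - A 1
      have e : a.1 + (m : 𝓞 F) * ((m : 𝓞 F) * (c : 𝓞 F) ^ 2 * x) - A 1 =
          (a.1 - A 1) + (m : 𝓞 F) * ((m : 𝓞 F) * (c : 𝓞 F) ^ 2 * x) := by ring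
      rw [e]
      exact dvd_add ha.1 (dvd_mul_right _ _)
    · show (m : 𝓞 F) ∣ a.2 + (m : 𝓞 F) * ((c : 𝓞 F) ^ 3 * y) - A 0
      have e : a.2 + (m : 𝓞 F) * ((c : 𝓞 F) ^ 3 * y) - A 0 =
          (a.2 - A 0) + (m : 𝓞 F) * ((c : 𝓞 F) ^ 3 * y) := by ring
      rw [e]
      exact dvd_add ha.2 (dvd_mul_right _ _)
    · refine Prod.ext ?_ ?_
      · show (a.1 + (m : 𝓞 F) * ((m : 𝓞 F) * (c : 𝓞 F) ^ 2 * x)) * ((Dp J : ℕ) : 𝓞 F) ^ 2 = p'.1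
        have e1 : p'.1 = (twp J a).1 + ((m ^ 4 : ℕ) : 𝓞 F) * x := by rw [← hx]; ring
        have e2 : (twp J a).1 = a.1 * ((Dp J : ℕ) : 𝓞 F) ^ 2 := rfl
        rw [e1, e2, Nat.cast_pow]
        have e3 : (m : 𝓞 F) ^ 4 * x = (m : 𝓞 F) * ((m : 𝓞 F) * (m : 𝓞 F) ^ 2 * x) := by ring
        have e4 : (m : 𝓞 F) ^ 2 = ((Dp J : ℕ) : 𝓞 F) ^ 2 * (c : 𝓞 F) ^ 2 := by rw [hmc]; ring
        rw [e3, e4]
        ring
      · show (a.2 + (m : 𝓞 F) * ((c : 𝓞 F) ^ 3 * y)) * ((Dp J : ℕ) : 𝓞 F) ^ 3 = p'.2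
        have e1 : p'.2 = (twp J a).2 + ((m ^ 4 : ℕ) : 𝓞 F) * y := by rw [← hy]; ring
        have e2 : (twp J a).2 = a.2 * ((Dp J : ℕ) : 𝓞 F) ^ 3 := rfl
        rw [e1, e2, Nat.cast_pow]
        have e3 : (m : 𝓞 F) ^ 4 * y = (m : 𝓞 F) * ((m : 𝓞 F) ^ 3 * y) := by ring
        have e4 : (m : 𝓞 F) ^ 3 = ((Dp J : ℕ) : 𝓞 F) ^ 3 * (c : 𝓞 F) ^ 3 := by rw [hmc]; ring
        rw [e3, e4]
        ring
  · obtain ⟨J₁, hJ₁⟩ := hJne
    have hD1 : (0 : ℝ) < ((Dp J₁ : ℕ) : ℝ) ^ 6 := by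
      have : (0 : ℝ) < ((Dp J₁ : ℕ) : ℝ) := by exact_mod_cast hDpos J₁ hJ₁
      positivity
    have hlim : Filter.Tendsto (fun X : ℝ => X / ((Dp J₁ : ℕ) : ℝ) ^ 6) Filter.atTop Filter.atTop :=
      Filter.tendsto_id.atTop_div_const hD1
    filter_upwards [hasm, hlim.eventually hbadev] with X hX hX2
    obtain ⟨a1, a2, a3⟩ := hX
    obtain ⟨b1, b2, b3⟩ := hX2
    rw [← hUp X] at a1 a2
    obtain ⟨G, hG⟩ : ∃ G : Set (𝓞 F × 𝓞 F), G = {p | p ∈ Hg X ∧ ∃ J ∈ JJ T k,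
      ∃ a ∈ Cl m (A 1) (A 0), a ∉ Bad ∧ twp J a = p} := ⟨_, rfl⟩
    rw [← hG] at a2
    have hGU : G ⊆ Up 𝔉 X := by
      rw [hG, hUp]
      rintro p ⟨h1, J, hJ, a, ha, hb, rfl⟩
      exact ⟨((hgd a hb).1 J hJ).1, h1, J, hJ, a, ha, rfl⟩
    have hUpos : 0 < (Up 𝔉 X).ncard := by
      rw [Set.ncard_pos a1]
      by_contra hcon
      rw [Set.not_nonempty_iff_eq_empty] at hcon
      have h4 : Cl m (A 1) (A 0) ∩ Hg (X / ((Dp J₁ : ℕ) : ℝ) ^ 6) ∩ Bad =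
          Cl m (A 1) (A 0) ∩ Hg (X / ((Dp J₁ : ℕ) : ℝ) ^ 6) := by
        ext a
        refine ⟨fun h => h.1, fun h => ⟨h, ?_⟩⟩
        by_contra hb
        have h5 : twp J₁ a ∈ Up 𝔉 X := by
          refine hGU ?_
          rw [hG]
          exact ⟨(twp_hg (hDpos J₁ hJ₁) a X).2 h.2, J₁, hJ₁, a, h.1, hb, rfl⟩
        rw [hcon] at h5
        exact h5
      rw [h4] at b3
      have h5 : (0 : ℝ) < ((Cl m (A 1) (A 0) ∩ Hg (X / ((Dp J₁ : ℕ) : ℝ) ^ 6)).ncard : ℝ) := by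
        exact_mod_cast b2
      nlinarith
    have hUr : (0 : ℝ) < ((Up 𝔉 X).ncard : ℝ) := by exact_mod_cast hUpos
    refine ⟨a1, hUpos, G, hGU, le_trans ?_ a2, ?_, ?_⟩
    · exact mul_le_mul_of_nonneg_right (by linarith) hUr.le
    · intro p hp
      rw [hG] at hp
      obtain ⟨-, J, hJ, a, -, hb, rfl⟩ := hp
      exact ((hgd a hb).1 J hJ).2.1
    · intro r hr
      have h0 := a3 r hr
      rw [← hUp X] at h0
      have h1 : (1 - t) * ∑ᶠ p ∈ G, gr r p ≤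
          (1 + t) * (2 ^ (r * (r + 1) / 2) + δ / 4) * ((Up 𝔉 X).ncard : ℝ) := by
        rw [hG]
        exact h0
      have h2 := mul_le_mul_of_nonneg_right (ht r hr) hUr.le
      have h3 : (1 - t) * ∑ᶠ p ∈ G, gr r p ≤ (1 - t) * ((2 ^ (r * (r + 1) / 2) + δ) *
          ((Up 𝔉 X).ncard : ℝ)) := by
        rw [← mul_assoc]
        exact h1.trans h2
      exact le_of_mul_le_mul_left h3 (by linarith)

end Pool.Agent.Run7.h245.MO
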