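import Pool.Agent.Run7.h245.SR.Lev

/-!
# Levels with different constants

Adapted from `SR/Lev.lean`.
-/

set_option autoImplicit false
set_option linter.all false

open Polynomial IsDedekindDomain Matrix NumberField WithZero
open scoped Classical

namespace Pool.Agent.Run7.h245.MO

open Pool.Agent.N352.PJ (Mt Typ dd)
open Pool.Agent.N874.PP (Ev Sq1 U0 S_LIN)
open Pool.Agent.N783.PQ (LocIm)
open Pool.Agent.N874.JM (LocF)
open Pool.Agent.N874.PM (PLoc)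
open Pool.Agent.N783.PF
open Pool.Agent.Run7.h245.SR

/-- Several levels. -/
structure LvX (F : Type) [Field F] [NumberField F] (η ε : ℕ → ℝ) (n₀ : ℕ → ℕ) (W₀ K : ℕ)
    (T : ℕ → Finset ℕ)
    (Wk : ℕ → ℕ) (𝔮 : ℕ → Ideal (𝓞 F)) (r P : ℕ → (𝓞 F)[X]) : Prop where
  base : ∀ k < K, W₀ ≤ Wk k
  good : ∀ k < K, GoodS 1 (Wk k) (T k) 𝔮 r P
  mono : ∀ i j, i ≤ j → j < K → Wk i ≤ Wk j
  lt : ∀ i j, i < j → j < K → ∀ q ∈ T i, q ≤ Wk j
  dat : ∀ k < K, LvD F (η k) (ε k) (n₀ k) ((Finset.range k).biUnion T) (T k) (Wk k)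

variable {F : Type} [Field F] [NumberField F]

/-- One more level. -/
theorem lvx_succ (hPRX : S_PRX) (hLEVB : S_LEVB) (hEXS : S_EXS) {η ε : ℕ → ℝ} {n₀ : ℕ → ℕ}
    {W₀ K : ℕ} {T : ℕ → Finset ℕ} {Wk : ℕ → ℕ} {𝔮 : ℕ → Ideal (𝓞 F)} {r P : ℕ → (𝓞 F)[X]}
    (H : LvX F η ε n₀ W₀ K T Wk 𝔮 r P) (hη : 0 < η K) (hε : 0 < ε K) (hε2 : ε K < 1 / 2) :
    ∃ (T' : ℕ → Finset ℕ) (Wk' : ℕ → ℕ) (𝔮' : ℕ → Ideal (𝓞 F)) (r' P' : ℕ → (𝓞 F)[X]),
      LvX F η ε n₀ W₀ (K + 1) T' Wk' 𝔮' r' P' ∧ ∀ k < K, T' k = T k := by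
  obtain ⟨S', hS'⟩ : ∃ S', S' = (Finset.range K).biUnion T := ⟨_, rfl⟩
  have hpos : ∀ q ∈ S', 0 < q := by
    intro q hq
    rw [hS'] at hq
    obtain ⟨k, hk, hqk⟩ := Finset.mem_biUnion.1 hq
    exact (H.good k (Finset.mem_range.1 hk) q hqk).1.pos
  obtain ⟨M, hM⟩ : ∃ M, M = W₀ + (∑ i ∈ Finset.range K, Wk i) + ∑ q ∈ S', q := ⟨_, rfl⟩
  obtain ⟨Tn, Wn, 𝔮n, rn, Pn, hMW, hgn, hdn⟩ :=
    exists_level (F := F) hPRX hLEVB hEXS hη hε hε2 (n₀ K) S' hpos M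
  have hW₀ : W₀ ≤ Wn := le_trans (by omega) hMW
  have hWi : ∀ i < K, Wk i ≤ Wn := by
    intro i hi
    have h1 := Finset.single_le_sum (f := fun i => Wk i) (fun _ _ => Nat.zero_le _)
      (Finset.mem_range.2 hi)
    exact le_trans (by omega) hMW
  have hqi : ∀ q ∈ S', q ≤ Wn := by
    intro q hq
    have h1 := Finset.single_le_sum (f := fun q : ℕ => q) (fun _ _ => Nat.zero_le _) hq
    exact le_trans (by omega) hMW
  have hout : ∀ k < K, ∀ q ∈ T k, q ∉ Tn := by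
    intro k hk q hq hqn
    have h1 := hqi q (by rw [hS']; exact Finset.mem_biUnion.2 ⟨k, Finset.mem_range.2 hk, hq⟩)
    have h2 : Wn < q := (hgn q hqn).2.1
    omega
  have hTk : ∀ k < K, Function.update T K Tn k = T k := fun k hk =>
    Function.update_of_ne hk.ne _ _
  have hWk : ∀ k < K, Function.update Wk K Wn k = Wk k := fun k hk =>
    Function.update_of_ne hk.ne _ _
  have hbi : ∀ k ≤ K, (Finset.range k).biUnion (Function.update T K Tn) =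
      (Finset.range k).biUnion T := fun k hk => bi_congr fun i hi => hTk i (hi.trans_le hk)
  refine ⟨Function.update T K Tn, Function.update Wk K Wn,
    fun q => if q ∈ Tn then 𝔮n q else 𝔮 q, fun q => if q ∈ Tn then rn q else r q,
    fun q => if q ∈ Tn then Pn q else P q, ⟨?_, ?_, ?_, ?_, ?_⟩, hTk⟩
  · intro k hk
    rcases Nat.lt_succ_iff_lt_or_eq.1 hk with hk | rfl
    · rw [hWk k hk]
      exact H.base k hk
    · rw [Function.update_self]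
      exact hW₀
  · intro k hk
    rcases Nat.lt_succ_iff_lt_or_eq.1 hk with hk | rfl
    · rw [hWk k hk, hTk k hk]
      exact goodS_congr (H.good k hk) (fun q hq => if_neg (hout k hk q hq))
        (fun q hq => if_neg (hout k hk q hq)) (fun q hq => if_neg (hout k hk q hq))
    · rw [Function.update_self, Function.update_self]
      exact goodS_congr hgn (fun q hq => if_pos hq) (fun q hq => if_pos hq)
        (fun q hq => if_pos hq)
  · intro i j hij hj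
    rcases Nat.lt_succ_iff_lt_or_eq.1 hj with hj | rfl
    · rw [hWk j hj, hWk i (hij.trans_lt hj)]
      exact H.mono i j hij hj
    · rw [Function.update_self]
      rcases hij.lt_or_eq with hij | rfl
      · rw [hWk i hij]
        exact hWi i hij
      · rw [Function.update_self]
  · intro i j hij hj q hq
    rcases Nat.lt_succ_iff_lt_or_eq.1 hj with hj | rfl
    · rw [hWk j hj]
      rw [hTk i (hij.trans hj)] at hq
      exact H.lt i j hij hj q hq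
    · rw [Function.update_self]
      rw [hTk i hij] at hq
      exact hqi q (by rw [hS']; exact Finset.mem_biUnion.2 ⟨i, Finset.mem_range.2 hij, hq⟩)
  · intro k hk
    rcases Nat.lt_succ_iff_lt_or_eq.1 hk with hk | rfl
    · rw [hWk k hk, hTk k hk, hbi k hk.le]
      exact H.dat k hk
    · rw [Function.update_self, Function.update_self, hbi k le_rfl, ← hS']
      exact hdn

/-- Extension of a system of levels. -/
theorem lvx_ext (hPRX : S_PRX) (hLEVB : S_LEVB) (hEXS : S_EXS) {η ε : ℕ → ℝ} {n₀ : ℕ → ℕ}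
    (hη : ∀ k, 0 < η k) (hε : ∀ k, 0 < ε k) (hε2 : ∀ k, ε k < 1 / 2)
    {W₀ K₁ : ℕ} {T : ℕ → Finset ℕ} {Wk : ℕ → ℕ} {𝔮 : ℕ → Ideal (𝓞 F)} {r P : ℕ → (𝓞 F)[X]}
    (H : LvX F η ε n₀ W₀ K₁ T Wk 𝔮 r P) (K : ℕ) (hK : K₁ ≤ K) :
    ∃ (T' : ℕ → Finset ℕ) (Wk' : ℕ → ℕ) (𝔮' : ℕ → Ideal (𝓞 F)) (r' P' : ℕ → (𝓞 F)[X]),
      LvX F η ε n₀ W₀ K T' Wk' 𝔮' r' P' ∧ ∀ k < K₁, T' k = T k := by
  induction K, hK using Nat.le_induction with
  | base => exact ⟨T, Wk, 𝔮, r, P, H, fun k _ => rfl⟩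
  | succ K hK ih =>
    obtain ⟨T', Wk', 𝔮', r', P', H', h'⟩ := ih
    obtain ⟨T'', Wk'', 𝔮'', r'', P'', H'', h''⟩ :=
      lvx_succ hPRX hLEVB hEXS H' (hη K) (hε K) (hε2 K)
    exact ⟨T'', Wk'', 𝔮'', r'', P'', H'', fun k hk => (h'' k (hk.trans_le hK)).trans (h' k hk)⟩

/-- Change of the constants which do not matter. -/
theorem LvX.congr {η ε η' ε' : ℕ → ℝ} {n₀ n₀' : ℕ → ℕ}
    {W₀ K : ℕ} {T : ℕ → Finset ℕ} {Wk : ℕ → ℕ} {𝔮 : ℕ → Ideal (𝓞 F)} {r P : ℕ → (𝓞 F)[X]}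
    (H : LvX F η ε n₀ W₀ K T Wk 𝔮 r P) (h1 : ∀ k < K, η' k = η k) (h2 : ∀ k < K, ε' k = ε k)
    (h3 : ∀ k < K, n₀' k = n₀ k) : LvX F η' ε' n₀' W₀ K T Wk 𝔮 r P :=
  ⟨H.base, H.good, H.mono, H.lt, fun k hk => by
    rw [h1 k hk, h2 k hk, h3 k hk]
    exact H.dat k hk⟩

/-- No levels. -/
theorem lvx_zero {η ε : ℕ → ℝ} {n₀ : ℕ → ℕ} {W₀ : ℕ} :
    LvX F η ε n₀ W₀ 0 (fun _ => ∅) (fun _ => 0) (fun _ => ⊥) (fun _ => 0) (fun _ => 0) :=
  ⟨fun k hk => absurd hk (Nat.not_lt_zero _), fun k hk => absurd hk (Nat.not_lt_zero _),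
    fun i j _ hk => absurd hk (Nat.not_lt_zero _), fun i j _ hk => absurd hk (Nat.not_lt_zero _),
    fun k hk => absurd hk (Nat.not_lt_zero _)⟩

variable {η ε : ℕ → ℝ} {n₀ : ℕ → ℕ} {W₀ K : ℕ} {T : ℕ → Finset ℕ} {Wk : ℕ → ℕ} {𝔮 : ℕ → Ideal (𝓞 F)}
  {r P : ℕ → (𝓞 F)[X]}

theorem LvX.disj (H : LvX F η ε n₀ W₀ K T Wk 𝔮 r P) : ∀ i < K, ∀ j < K, i ≠ j →
    Disjoint (T i) (T j) := by
  have key : ∀ i j, i < j → j < K → Disjoint (T i) (T j) := by
    intro i j hij hj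
    rw [Finset.disjoint_left]
    intro q hq hq'
    have h1 := H.lt i j hij hj q hq
    have h2 : Wk j < q := (H.good j hj q hq').2.1
    omega
  intro i hi j hj hij
  rcases lt_or_gt_of_ne hij with h | h
  · exact key i j h hj
  · exact (key j i h hi).symm

/-- The levels `≥ k`. -/
theorem LvX.good_ge (H : LvX F η ε n₀ W₀ K T Wk 𝔮 r P) {k : ℕ} (hk : k < K) :
    GoodS 1 (Wk k) ((Finset.Ico k K).biUnion T) 𝔮 r P := by
  intro q hq
  obtain ⟨j, hj, hqj⟩ := Finset.mem_biUnion.1 hq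
  rw [Finset.mem_Ico] at hj
  obtain ⟨h1, h2, h3⟩ := H.good j hj.2 q hqj
  exact ⟨h1, (H.mono k j hj.1 hj.2).trans_lt h2, h3⟩

/-- All levels. -/
theorem LvX.good_all (H : LvX F η ε n₀ W₀ K T Wk 𝔮 r P) :
    GoodS 1 W₀ ((Finset.range K).biUnion T) 𝔮 r P := by
  intro q hq
  obtain ⟨j, hj, hqj⟩ := Finset.mem_biUnion.1 hq
  rw [Finset.mem_range] at hj
  obtain ⟨h1, h2, h3⟩ := H.good j hj q hqj
  exact ⟨h1, (H.base j hj).trans_lt h2, h3⟩

theorem LvX.union (H : LvX F η ε n₀ W₀ K T Wk 𝔮 r P) {k : ℕ} (hk : k < K) :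
    (Finset.range K).biUnion T = (Finset.range k).biUnion T ∪ (Finset.Ico k K).biUnion T ∧
    Disjoint ((Finset.range k).biUnion T) ((Finset.Ico k K).biUnion T) := by
  constructor
  · ext q
    simp only [Finset.mem_biUnion, Finset.mem_union, Finset.mem_range, Finset.mem_Ico]
    constructor
    · rintro ⟨j, hj, hq⟩
      rcases lt_or_ge j k with h | h
      · exact Or.inl ⟨j, h, hq⟩
      · exact Or.inr ⟨j, ⟨h, hj⟩, hq⟩
    · rintro (⟨j, hj, hq⟩ | ⟨j, hj, hq⟩)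
      · exact ⟨j, hj.trans hk, hq⟩
      · exact ⟨j, hj.2, hq⟩
  · rw [Finset.disjoint_left]
    intro q hq hq'
    obtain ⟨i, hi, hqi⟩ := Finset.mem_biUnion.1 hq
    obtain ⟨j, hj, hqj⟩ := Finset.mem_biUnion.1 hq'
    rw [Finset.mem_range] at hi
    rw [Finset.mem_Ico] at hj
    exact Finset.disjoint_left.1 (H.disj i (hi.trans hk) j hj.2 (by omega)) hqi hqj

/-- The bad polynomials of all levels. -/
theorem LvX.bad (H : LvX F η ε n₀ W₀ K T Wk 𝔮 r P) (hη : ∀ k, 0 < η k) :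
    ∃ B₀ : ℕ, ∀ B ≥ B₀, ∃ Bd : Set ((𝓞 F)[X]), Bd.Finite ∧
      Pi1 F ((Finset.range K).biUnion T) * (Bd.ncard : ℝ) ≤
        (∑ k ∈ Finset.range K, η k) * (B : ℝ) ^ De F ∧
      ∀ f, Ht 1 B f → SqF 1 f → (∀ q ∈ (Finset.range K).biUnion T, Cg (sp F q) f (P q)) →
        f ∉ Bd → ∀ k < K, PrAt 1 f 𝔮 ((Finset.range k).biUnion T) (T k) (ε k) := by
  have key : ∀ k < K, ∃ B₀ : ℕ, ∀ B ≥ B₀, ∃ Bd : Set ((𝓞 F)[X]), Bd.Finite ∧
      Pi1 F ((Finset.range K).biUnion T) * (Bd.ncard : ℝ) ≤ η k * (B : ℝ) ^ De F ∧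
      ∀ f, Ht 1 B f → SqF 1 f → (∀ q ∈ (Finset.range K).biUnion T, Cg (sp F q) f (P q)) →
        f ∉ Bd → PrAt 1 f 𝔮 ((Finset.range k).biUnion T) (T k) (ε k) := by
    intro k hk
    obtain ⟨hU, hD⟩ := H.union hk
    have hTk : T k ⊆ (Finset.Ico k K).biUnion T := by
      intro q hq
      exact Finset.mem_biUnion.2 ⟨k, Finset.mem_Ico.2 ⟨le_rfl, hk⟩, hq⟩
    have hS' : GoodS 1 W₀ ((Finset.range k).biUnion T) 𝔮 r P := by
      intro q hq
      refine H.good_all q ?_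
      rw [hU]
      exact Finset.mem_union_left _ hq
    obtain ⟨B₀, hB₀⟩ := level_bad (H.dat k hk) (H.good_ge hk) hTk hS'
      (Disjoint.mono_right hTk hD)
    refine ⟨B₀, fun B hB => ?_⟩
    obtain ⟨Bd, h1, h2, h3⟩ := hB₀ B hB
    refine ⟨Bd, h1, ?_, fun f a1 a2 a3 a4 => h3 f a1 a2 (fun q hq => a3 q ?_) a4⟩
    · rw [hU, Pi1_union hD, mul_assoc]
      exact h2
    · rw [hU]
      exact Finset.mem_union_right _ hq
  choose! B₀ hB₀ using key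
  refine ⟨∑ k ∈ Finset.range K, B₀ k, fun B hB => ?_⟩
  have hB' : ∀ k < K, B₀ k ≤ B := by
    intro k hk
    have h1 := Finset.single_le_sum (f := fun i => B₀ i) (fun _ _ => Nat.zero_le _)
      (Finset.mem_range.2 hk)
    exact h1.trans hB
  have key2 : ∀ k : ℕ, ∃ Bd : Set ((𝓞 F)[X]), k < K → (Bd.Finite ∧
      Pi1 F ((Finset.range K).biUnion T) * (Bd.ncard : ℝ) ≤ η k * (B : ℝ) ^ De F ∧
      ∀ f, Ht 1 B f → SqF 1 f → (∀ q ∈ (Finset.range K).biUnion T, Cg (sp F q) f (P q)) →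
        f ∉ Bd → PrAt 1 f 𝔮 ((Finset.range k).biUnion T) (T k) (ε k)) := by
    intro k
    by_cases hk : k < K
    · obtain ⟨Bd, h⟩ := hB₀ k hk B (hB' k hk)
      exact ⟨Bd, fun _ => h⟩
    · exact ⟨∅, fun h => absurd h hk⟩
  choose Bd hBd using key2
  have hP : 0 < Pi1 F ((Finset.range K).biUnion T) := Pi1_pos fun q hq =>
    (H.good_all q hq).1.pos
  -- the union
  have hun : ∀ n ≤ K, (⋃ k ∈ Finset.range n, Bd k).Finite ∧
      Pi1 F ((Finset.range K).biUnion T) * ((⋃ k ∈ Finset.range n, Bd k).ncard : ℝ) ≤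
        (∑ k ∈ Finset.range n, η k) * (B : ℝ) ^ De F := by
    intro n
    induction n with
    | zero =>
      intro _
      simp
    | succ n ih =>
      intro hn
      obtain ⟨i1, i2⟩ := ih (by omega)
      obtain ⟨j1, j2, -⟩ := hBd n (by omega)
      have e : (⋃ k ∈ Finset.range (n + 1), Bd k) = (⋃ k ∈ Finset.range n, Bd k) ∪ Bd n := by
        rw [Finset.range_add_one, Finset.set_biUnion_insert, Set.union_comm]
      rw [e]
      refine ⟨i1.union j1, ?_⟩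
      have h1 : (((⋃ k ∈ Finset.range n, Bd k) ∪ Bd n).ncard : ℝ) ≤
          ((⋃ k ∈ Finset.range n, Bd k).ncard : ℝ) + (Bd n).ncard := by
        exact_mod_cast Set.ncard_union_le _ _
      calc _ ≤ Pi1 F ((Finset.range K).biUnion T) *
            (((⋃ k ∈ Finset.range n, Bd k).ncard : ℝ) + (Bd n).ncard) :=
            mul_le_mul_of_nonneg_left h1 hP.le
        _ ≤ (∑ k ∈ Finset.range n, η k) * (B : ℝ) ^ De F + η n * (B : ℝ) ^ De F := by
            rw [mul_add]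
            exact add_le_add i2 j2
        _ = _ := by rw [Finset.sum_range_succ]; ring
  obtain ⟨u1, u2⟩ := hun K le_rfl
  refine ⟨_, u1, u2, fun f a1 a2 a3 a4 k hk => (hBd k hk).2.2 f a1 a2 a3 fun h => a4 ?_⟩
  exact Set.mem_biUnion (Finset.mem_coe.2 (Finset.mem_range.2 hk)) h


end Pool.Agent.Run7.h245.MO
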