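import Pool.Agent.Run7.h245.MO.Iface
import Pool.Agent.Run7.h245.MO.Lx

/-!
# Levels in short intervals

Adapted from `SR/Lev.lean`, `MO/Lx.lean`, `N710/PF/Exs.lean`.
-/

set_option autoImplicit false
set_option linter.all false

open Polynomial IsDedekindDomain Matrix NumberField WithZero
open scoped Classical

namespace Pool.Agent.Run7.h245.MO

open Pool.Agent.N352.PJ (Mt Typ dd)
open Pool.Agent.N874.PP (Ev Sq1 U0 S_LIN)
open Pool.Agent.N783.PQ (LocIm)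
open Pool.Agent.N874.JM (LocF)
open Pool.Agent.N874.PM (PLoc)
open Pool.Agent.N783.PF
open Pool.Agent.Run7.h245.SR

/-- The elements of the set are nearly of the same size. -/
def Win (ρ : ℝ) (S : Finset ℕ) : Prop := ∀ q ∈ S, ∀ q' ∈ S, (q : ℝ) ≤ (1 + ρ) * q'

theorem exw (hWIN : S_WIN) (F : Type) [Field F] [NumberField F] {ρ : ℝ} (hρ : 0 < ρ) (W m : ℕ) :
    ∃ (S : Finset ℕ) (𝔮 : ℕ → Ideal (𝓞 F)) (h P : ℕ → (𝓞 F)[X]),
      GoodS 1 W S 𝔮 h P ∧ S.card = m ∧ Win ρ S := by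
  obtain ⟨S, hS, hS2, hwin⟩ := hWIN ρ hρ (W + (2 * 1 + 1) + (discr F).natAbs) m
  have hdata : ∀ q : ℕ, ∃ (𝔮 : Ideal (𝓞 F)) (h A : (𝓞 F)[X]), q ∈ S →
    (∀ 𝔭 : Ideal (𝓞 F), 𝔭.IsPrime → (q : 𝓞 F) ∉ 𝔭 ^ 2) ∧
    𝔮.IsPrime ∧ (q : 𝓞 F) ∈ 𝔮 ∧
    h.Monic ∧ h.natDegree = 2 * 1 ∧ Irreducible (rd 𝔮 h) ∧
    A.Monic ∧ A.natDegree = 2 * 1 + 1 ∧ A.coeff (2 * 1) = 0 ∧
    Cg 𝔮 A (X * h) ∧
    ∀ 𝔭 : Ideal (𝓞 F), 𝔭.IsPrime → (q : 𝓞 F) ∈ 𝔭 → 𝔭 ≠ 𝔮 → Irreducible (rd 𝔭 A) := by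
    intro q
    by_cases hq : q ∈ S
    · obtain ⟨h1, h2, h3⟩ := hS2 q hq
      obtain ⟨𝔮, h, A, hh⟩ := Pool.Agent.N710.PF.exists_data F 1 q le_rfl h1 (by omega) (by omega)
      exact ⟨𝔮, h, A, fun _ => hh⟩
    · exact ⟨⊥, 0, 0, fun h => absurd h hq⟩
  choose 𝔮 h A hh using hdata
  refine ⟨S, 𝔮, h, A, fun q hq => ?_, hS, hwin⟩
  obtain ⟨h1, h2, h3⟩ := hS2 q hq
  exact ⟨h1, by omega, by omega, h3, hh q hq⟩

variable {F : Type} [Field F] [NumberField F]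

theorem exists_level_w (hPRX : S_PRX) (hLEVB : S_LEVB) (hWIN : S_WIN) {η ε ρ : ℝ} (hη : 0 < η)
    (hε : 0 < ε) (hε2 : ε < 1 / 2) (hρ : 0 < ρ) (n₀ : ℕ) (S' : Finset ℕ) (hS' : ∀ q ∈ S', 0 < q)
    (M : ℕ) :
    ∃ (T : Finset ℕ) (W' : ℕ) (𝔮 : ℕ → Ideal (𝓞 F)) (r P : ℕ → (𝓞 F)[X]), M ≤ W' ∧
      GoodS 1 W' T 𝔮 r P ∧ LvD F η ε n₀ S' T W' ∧ Win ρ T := by
  have hm₀ : (∏ q ∈ S', q) ≠ 0 := Finset.prod_ne_zero_iff.2 fun q hq => (hS' q hq).ne'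
  obtain ⟨κ, hκ⟩ := hPRX 1 F (∏ q ∈ S', q) hm₀ le_rfl
  have hP' : 0 < Pi1 F S' := Pi1_pos hS'
  obtain ⟨δ, hδ, hsm⟩ : ∃ δ : ℝ, 0 < δ ∧ Pi1 F S' * (δ * (4 * 2 ^ κ) ^ De F) ≤ η := by
    refine ⟨η / (Pi1 F S' * (4 * 2 ^ κ) ^ De F), by positivity, le_of_eq ?_⟩
    have h1 : Pi1 F S' ≠ 0 := hP'.ne'
    have h2 : ((4 * 2 ^ κ : ℝ) ^ De F) ≠ 0 := by positivity
    field_simp
  obtain ⟨m, s₀, K, hlev⟩ := hLEVB F 1 κ le_rfl δ ε hδ hε hε2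
  obtain ⟨T, 𝔮, r, P, hT, hcard, hwin⟩ := exw hWIN F hρ (max M (max κ K)) (max s₀ n₀)
  refine ⟨T, max M (max κ K), 𝔮, r, P, le_max_left _ _, hT, ⟨?_, κ, m, δ, hδ,
    (le_max_left _ _).trans (le_max_right _ _), hsm, hκ, ?_⟩, hwin⟩
  · rw [hcard]
    exact le_max_right _ _
  · intro W S 𝔮' h' P' hW hS hTS
    exact hlev W S T 𝔮' h' P' (((le_max_right _ _).trans (le_max_right _ _)).trans hW) hS hTS
      (by rw [hcard]; exact le_max_left _ _)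

/-- One more level. -/
theorem lvw_succ (hPRX : S_PRX) (hLEVB : S_LEVB) (hWIN : S_WIN) {ρ : ℝ} (hρ : 0 < ρ) {η ε : ℕ → ℝ} {n₀ : ℕ → ℕ}
    {W₀ K : ℕ} {T : ℕ → Finset ℕ} {Wk : ℕ → ℕ} {𝔮 : ℕ → Ideal (𝓞 F)} {r P : ℕ → (𝓞 F)[X]}
    (H : LvX F η ε n₀ W₀ K T Wk 𝔮 r P) (hη : 0 < η K) (hε : 0 < ε K) (hε2 : ε K < 1 / 2) :
    ∃ (T' : ℕ → Finset ℕ) (Wk' : ℕ → ℕ) (𝔮' : ℕ → Ideal (𝓞 F)) (r' P' : ℕ → (𝓞 F)[X]),
      LvX F η ε n₀ W₀ (K + 1) T' Wk' 𝔮' r' P' ∧ (∀ k < K, T' k = T k) ∧ Win ρ (T' K) := by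
  obtain ⟨S', hS'⟩ : ∃ S', S' = (Finset.range K).biUnion T := ⟨_, rfl⟩
  have hpos : ∀ q ∈ S', 0 < q := by
    intro q hq
    rw [hS'] at hq
    obtain ⟨k, hk, hqk⟩ := Finset.mem_biUnion.1 hq
    exact (H.good k (Finset.mem_range.1 hk) q hqk).1.pos
  obtain ⟨M, hM⟩ : ∃ M, M = W₀ + (∑ i ∈ Finset.range K, Wk i) + ∑ q ∈ S', q := ⟨_, rfl⟩
  obtain ⟨Tn, Wn, 𝔮n, rn, Pn, hMW, hgn, hdn, hwn⟩ :=
    exists_level_w (F := F) hPRX hLEVB hWIN hη hε hε2 hρ (n₀ K) S' hpos M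
  have hW₀ : W₀ ≤ Wn := le_trans (by omega) hMW
  have hWi : ∀ i < K, Wk i ≤ Wn := by
    intro i hi
    have h1 := Finset.single_le_sum (f := fun i => Wk i) (fun _ _ => Nat.zero_le _)
      (Finset.mem_range.2 hi)
    exact le_trans (by omega) hMW
  have hqi : ∀ q ∈ S', q ≤ Wn := by
    intro q hq
    have h1 := Finset.single_le_sum (f := fun q : ℕ => q) (fun _ _ => Nat.zero_le _) hq
    exact le_trans (by omega) hMW
  have hout : ∀ k < K, ∀ q ∈ T k, q ∉ Tn := by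
    intro k hk q hq hqn
    have h1 := hqi q (by rw [hS']; exact Finset.mem_biUnion.2 ⟨k, Finset.mem_range.2 hk, hq⟩)
    have h2 : Wn < q := (hgn q hqn).2.1
    omega
  have hTk : ∀ k < K, Function.update T K Tn k = T k := fun k hk =>
    Function.update_of_ne hk.ne _ _
  have hWk : ∀ k < K, Function.update Wk K Wn k = Wk k := fun k hk =>
    Function.update_of_ne hk.ne _ _
  have hbi : ∀ k ≤ K, (Finset.range k).biUnion (Function.update T K Tn) =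
      (Finset.range k).biUnion T := fun k hk => bi_congr fun i hi => hTk i (hi.trans_le hk)
  refine ⟨Function.update T K Tn, Function.update Wk K Wn,
    fun q => if q ∈ Tn then 𝔮n q else 𝔮 q, fun q => if q ∈ Tn then rn q else r q,
    fun q => if q ∈ Tn then Pn q else P q, ⟨?_, ?_, ?_, ?_, ?_⟩, hTk, by
      rw [Function.update_self]; exact hwn⟩
  · intro k hk
    rcases Nat.lt_succ_iff_lt_or_eq.1 hk with hk | rfl
    · rw [hWk k hk]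
      exact H.base k hk
    · rw [Function.update_self]
      exact hW₀
  · intro k hk
    rcases Nat.lt_succ_iff_lt_or_eq.1 hk with hk | rfl
    · rw [hWk k hk, hTk k hk]
      exact goodS_congr (H.good k hk) (fun q hq => if_neg (hout k hk q hq))
        (fun q hq => if_neg (hout k hk q hq)) (fun q hq => if_neg (hout k hk q hq))
    · rw [Function.update_self, Function.update_self]
      exact goodS_congr hgn (fun q hq => if_pos hq) (fun q hq => if_pos hq)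
        (fun q hq => if_pos hq)
  · intro i j hij hj
    rcases Nat.lt_succ_iff_lt_or_eq.1 hj with hj | rfl
    · rw [hWk j hj, hWk i (hij.trans_lt hj)]
      exact H.mono i j hij hj
    · rw [Function.update_self]
      rcases hij.lt_or_eq with hij | rfl
      · rw [hWk i hij]
        exact hWi i hij
      · rw [Function.update_self]
  · intro i j hij hj q hq
    rcases Nat.lt_succ_iff_lt_or_eq.1 hj with hj | rfl
    · rw [hWk j hj]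
      rw [hTk i (hij.trans hj)] at hq
      exact H.lt i j hij hj q hq
    · rw [Function.update_self]
      rw [hTk i hij] at hq
      exact hqi q (by rw [hS']; exact Finset.mem_biUnion.2 ⟨i, Finset.mem_range.2 hij, hq⟩)
  · intro k hk
    rcases Nat.lt_succ_iff_lt_or_eq.1 hk with hk | rfl
    · rw [hWk k hk, hTk k hk, hbi k hk.le]
      exact H.dat k hk
    · rw [Function.update_self, Function.update_self, hbi k le_rfl, ← hS']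
      exact hdn

/-- Extension of a system of levels. -/
theorem lvw_ext (hPRX : S_PRX) (hLEVB : S_LEVB) (hWIN : S_WIN) {ρ : ℝ} (hρ : 0 < ρ)
    {η ε : ℕ → ℝ} {n₀ : ℕ → ℕ}
    (hη : ∀ k, 0 < η k) (hε : ∀ k, 0 < ε k) (hε2 : ∀ k, ε k < 1 / 2)
    {W₀ K₁ : ℕ} {T : ℕ → Finset ℕ} {Wk : ℕ → ℕ} {𝔮 : ℕ → Ideal (𝓞 F)} {r P : ℕ → (𝓞 F)[X]}
    (H : LvX F η ε n₀ W₀ K₁ T Wk 𝔮 r P) (K : ℕ) (hK : K₁ ≤ K) :
    ∃ (T' : ℕ → Finset ℕ) (Wk' : ℕ → ℕ) (𝔮' : ℕ → Ideal (𝓞 F)) (r' P' : ℕ → (𝓞 F)[X]),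
      LvX F η ε n₀ W₀ K T' Wk' 𝔮' r' P' ∧ (∀ k < K₁, T' k = T k) ∧
      ∀ k, K₁ ≤ k → k < K → Win ρ (T' k) := by
  induction K, hK using Nat.le_induction with
  | base => exact ⟨T, Wk, 𝔮, r, P, H, fun k _ => rfl, fun k h1 h2 => absurd h1 (not_le.2 h2)⟩
  | succ K hK ih =>
    obtain ⟨T', Wk', 𝔮', r', P', H', h', hw'⟩ := ih
    obtain ⟨T'', Wk'', 𝔮'', r'', P'', H'', h'', hw''⟩ :=
      lvw_succ hPRX hLEVB hWIN hρ H' (hη K) (hε K) (hε2 K)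
    refine ⟨T'', Wk'', 𝔮'', r'', P'', H'', fun k hk => (h'' k (hk.trans_le hK)).trans (h' k hk),
      fun k h1 h2 => ?_⟩
    rcases Nat.lt_succ_iff_lt_or_eq.1 h2 with h3 | rfl
    · rw [h'' k h3]
      exact hw' k h1 h3
    · exact hw''

end Pool.Agent.Run7.h245.MO
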