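import Pool.Agent.Run7.h245.MO.Sm
import Pool.Agent.Run7.h245.MO.Lx

/-!
# Almost all polynomials of a residue class are good
-/

set_option autoImplicit false
set_option linter.all false

open Polynomial IsDedekindDomain Matrix NumberField WithZero
open scoped Classical

namespace Pool.Agent.Run7.h245.MO

open Pool.Agent.N951.PF
open Pool.Agent.N352.PJ (dd pol dis Dy D2)
open Pool.Agent.N352.PF (dg Bal nv rv Bz Bx S_BX S_SML S_WK S_STR S_DSC S_GF S_PF S_CU S_LD S_PR)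
open Pool.Agent.N783.PF (Bd Cg sp rd Ht GoodS GoodF Fam S_FAM LBad SqF)
open Pool.Agent.Run7.h245.SR

/-- The good polynomials. -/
structure GdP {F : Type} [Field F] [NumberField F] (W K : ℕ) (T : ℕ → Finset ℕ)
    (𝔮 : ℕ → Ideal (𝓞 F)) (P : ℕ → (𝓞 F)[X]) (ε : ℕ → ℝ) (f : (𝓞 F)[X]) : Prop where
  mon : f.Monic
  deg : f.natDegree = 3
  tr : f.coeff 2 = 0
  irr : Irreducible (Pool.Agent.N783.PF.fF f)
  sqf : SqF 1 f
  sm : Small W f
  one : ∃ f₁ : (𝓞 F)[X], GoodF 1 W f₁ ∧ Cg (sp F W) f f₁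
  con : ∀ q ∈ (Finset.range K).biUnion T, Cg (sp F q) f (P q)
  pr : ∀ k < K, PrAt 1 f 𝔮 ((Finset.range k).biUnion T) (T k) (ε k)

theorem cnt (F : Type) [Field F] [NumberField F] (δ : ℝ) (hδ : 0 < δ) :
    ∃ (W s : ℕ) (η₁ : ℝ), 0 < W ∧ 0 < η₁ ∧ ∀ (K : ℕ) (T : ℕ → Finset ℕ) (Wk : ℕ → ℕ)
      (𝔮 : ℕ → Ideal (𝓞 F)) (r P : ℕ → (𝓞 F)[X]) (η ε : ℕ → ℝ) (n₀ : ℕ → ℕ),
      LvX F η ε n₀ W K T Wk 𝔮 r P → (∀ k, 0 < η k) → ∑ k ∈ Finset.range K, η k ≤ η₁ →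
      s ≤ ((Finset.range K).biUnion T).card →
      ∃ (A : Fin (2 * 1) → 𝓞 F) (B₀ : ℕ), ∀ B ≥ B₀,
        (Bx 1 B (W * ∏ q ∈ (Finset.range K).biUnion T, q) A).Finite ∧
        ({a ∈ Bx 1 B (W * ∏ q ∈ (Finset.range K).biUnion T, q) A |
          ¬ GdP W K T 𝔮 P ε (pol a)}.ncard : ℝ) *
          ((W * ∏ q ∈ (Finset.range K).biUnion T, q : ℕ) : ℝ) ^ (2 * 1 * dg F) ≤
          δ * (B : ℝ) ^ De F := by
  have h7 := Pool.Agent.N195.PF.pf
  obtain ⟨κ, hsqf⟩ := Pool.Agent.N783.PF.sqf 1 F le_rfl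
  obtain ⟨Cb, Kb, hbad⟩ := Pool.Agent.N783.PF.bad F 1 κ le_rfl
  obtain ⟨C₁, hC₁, hBX⟩ := Pool.Agent.N352.PF.bxT F 1
  have hC0 : (0 : ℝ) < C₁ := by exact_mod_cast hC₁
  obtain ⟨M, C₂, hC₂, hM⟩ := smle Pool.Agent.N75.PF.cu Pool.Agent.N352.PF.bxT Pool.Agent.N189.PF.ld
    Pool.Agent.N195.PF.pr Pool.Agent.N195.PF.pf F 1 le_rfl (δ / (4 * C₁)) (by positivity)
  obtain ⟨p₀, hp₀K, hp₀⟩ := Nat.exists_infinite_primes (max (max Kb κ) 7)
  obtain ⟨W, f₁, hmon, hdeg, htr, hW0, htwo, hirr, hsep, hW, hΨ⟩ :=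
    Pool.Agent.Run7.h245.NF.gf1 F (max p₀ (max M (2 * 1 + 1)))
  have hKW : max (max Kb κ) 7 ≤ W := hp₀K.trans (Nat.le_of_dvd hW0 (hW p₀ hp₀ (le_max_left _ _)))
  have hne : ∀ (𝔭 : Ideal (𝓞 F)) (n : ℕ), 0 < n → (n : 𝓞 F) ∈ 𝔭 → 𝔭 ≠ ⊥ := by
    intro 𝔭 n hn hm h0
    rw [h0, Ideal.mem_bot] at hm
    have : n = 0 := by exact_mod_cast hm
    omega
  have hgood : GoodF 1 W f₁ := by
    refine ⟨hmon, hdeg, htr, hW0, htwo, ?_, ?_⟩
    · intro 𝔭 hp h2m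
      have hb : 𝔭 ≠ ⊥ := hne 𝔭 2 two_pos (by exact_mod_cast h2m)
      exact hirr ⟨𝔭, hp, hb⟩ h2m
    · intro 𝔭 hp hWm
      exact hsep ⟨𝔭, hp, hne 𝔭 W hW0 hWm⟩ hWm
  have hp7 : ∀ p : ℕ, p.Prime → p ≤ 7 → p ∣ W := fun p hp hpK =>
    hW p hp ((hpK.trans ((le_max_right _ _).trans hp₀K)).trans (le_max_left _ _))
  have hWr : (0 : ℝ) < (W : ℝ) ^ (2 * 1 * dg F) := by positivity
  obtain ⟨s, hs⟩ : ∃ s : ℕ, 4 * (W : ℝ) ^ (2 * 1 * dg F) * (Cb * (4 * 2 ^ κ : ℝ) ^ De F) / δ <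
      2 ^ s := pow_unbounded_of_one_lt _ (by norm_num)
  refine ⟨W, s, δ / (4 * (W : ℝ) ^ (2 * 1 * dg F)), hW0, by positivity, ?_⟩
  intro K T Wk 𝔮 r P η ε n₀ H hη hηs hsS
  obtain ⟨B₂, hB₂⟩ := H.bad hη
  obtain ⟨S, hSd⟩ : ∃ S, (Finset.range K).biUnion T = S := ⟨_, rfl⟩
  have hS := H.good_all
  rw [hSd] at hS hB₂ hsS ⊢
  obtain ⟨Q, hQ⟩ : ∃ Q : ℕ, Q = ∏ q ∈ S, q := ⟨_, rfl⟩
  rw [← hQ]
  have hQ0 : 0 < Q := by
    rw [hQ]
    exact Finset.prod_pos fun q hq => (hS q hq).1.pos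
  have hWQ : 0 < W * Q := Nat.mul_pos hW0 hQ0
  have hmr : (0 : ℝ) < ((W * Q : ℕ) : ℝ) ^ (2 * 1 * dg F) := by
    have : (0 : ℝ) < ((W * Q : ℕ) : ℝ) := by exact_mod_cast hWQ
    positivity
  -- residues
  have hcrt : ∀ j : Fin (2 * 1), ∃ x : 𝓞 F, (W : 𝓞 F) ∣ x - f₁.coeff j ∧
      ∀ q ∈ S, (q : 𝓞 F) ∣ x - (P q).coeff j := fun j =>
    crt W S (fun q hq => ⟨(hS q hq).1, fun hd =>
      absurd (Nat.le_of_dvd hW0 hd) (by have := (hS q hq).2.1; omega)⟩) _ _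
  choose A hA1 hA2 using hcrt
  obtain ⟨B₁, hB₁⟩ := Pool.Agent.N352.PF.STR331.str Pool.Agent.N75.PF.cu Pool.Agent.N364.PF.cl
    Pool.Agent.N195.PF.pf F 1 le_rfl (δ / (4 * ((W * Q : ℕ) : ℝ) ^ (2 * 1 * dg F)))
    (by positivity)
  obtain ⟨N₀, hN₀⟩ := hbad W S 𝔮 r P
      ((le_max_left _ _).trans ((le_max_left _ _).trans hKW)) hS
  have hκW : κ ≤ W := (le_max_right _ _).trans ((le_max_left _ _).trans hKW)
  have hPi : 0 < Pi1 F S := Pi1_pos fun q hq => (hS q hq).1.pos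
  refine ⟨A, max (max B₁ (max (C₁ * (W * Q)) (C₂ * (W * Q)))) (max (max B₂ 1) (4 ^ N₀)),
    fun B hB => ?_⟩
  have hBB1 : B₁ ≤ B := (le_max_left _ _).trans ((le_max_left _ _).trans hB)
  have hBC1 : C₁ * (W * Q) ≤ B :=
    ((le_max_left _ _).trans (le_max_right _ _)).trans ((le_max_left _ _).trans hB)
  have hBC2 : C₂ * (W * Q) ≤ B :=
    ((le_max_right _ _).trans (le_max_right _ _)).trans ((le_max_left _ _).trans hB)
  have hb2 : B₂ ≤ B := ((le_max_left _ _).trans (le_max_left _ _)).trans ((le_max_right _ _).trans hB)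
  have hb1 : 1 ≤ B := ((le_max_right _ _).trans (le_max_left _ _)).trans ((le_max_right _ _).trans hB)
  have hb4 : 4 ^ N₀ ≤ B := (le_max_right _ _).trans ((le_max_right _ _).trans hB)
  obtain ⟨hfin, -, hcard⟩ := hBX B (W * Q) A hWQ hBC1
  obtain ⟨hfin0, -, -⟩ := hBX B 1 (fun _ => 0) one_pos
    (le_trans (Nat.mul_le_mul_left C₁ hWQ) hBC1)
  have hBz : (Bz F 1 B).Finite := by
    refine hfin0.subset ?_
    intro a ha
    exact ⟨ha, fun j => by simp⟩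
  have hsml := hM B (W * Q) A hWQ hBC2
  have hstr := hB₁ B hBB1
  obtain ⟨N, hNa, hNb⟩ := exists_N κ B hb1
  obtain ⟨hfin1, hcard1⟩ := hN₀ N (N_ge hNa hb4)
  obtain ⟨Bd, hfin2, hcard2, hBd⟩ := hB₂ B hb2
  refine ⟨hfin, ?_⟩
  set U := Bx 1 B (W * Q) A with hU
  set U1 := {a ∈ U | ∃ v : HeightOneSpectrum (𝓞 F), M < nv v ∧ nv v ^ 2 < B ^ dg F ∧
    ((W * Q : ℕ) : 𝓞 F) ∉ v.asIdeal ∧ dis a ∈ v.asIdeal ^ 2} with hU1
  set U2 := {a ∈ Bz F 1 B | ∃ v : HeightOneSpectrum (𝓞 F), B ^ dg F ≤ nv v ^ 2 ∧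
    dis a ∈ v.asIdeal ∧ D2 a ∈ v.asIdeal} with hU2
  have hU1f : U1.Finite := hfin.subset (Set.sep_subset _ _)
  have hU2f : U2.Finite := hBz.subset (Set.sep_subset _ _)
  set LB := {f : (𝓞 F)[X] | LBad 1 N κ S 𝔮 P f} with hLB
  -- the good ones are in the family
  have key : ∀ a ∈ U, a ∉ U1 → a ∉ U2 → Fam 1 B W f₁ S P (pol a) := by
    intro a haU ha1 ha2
    have haB : a ∈ Bz F 1 B := haU.1
    have haR : ∀ j, ((W * Q : ℕ) : 𝓞 F) ∣ a j - A j := haU.2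
    have hone : Cg (sp F W) (pol a) f₁ := by
      apply cg_pol a hmon hdeg htr
      intro j
      rw [Ideal.mem_span_singleton]
      have e1 : (W : 𝓞 F) ∣ a j - A j := dvd_trans (by push_cast; exact dvd_mul_right _ _) (haR j)
      have e2 : a j - f₁.coeff j = (a j - A j) + (A j - f₁.coeff j) := by ring
      rw [e2]
      exact dvd_add e1 (hA1 j)
    have hcon : ∀ q ∈ S, Cg (sp F q) (pol a) (P q) := by
      intro q hq
      obtain ⟨hq1, hq2, hq3, hq4, hq5, hq6, hq7, hq8, hq9, hq10, hq11, hq12, hq13, hq14, hq15⟩ :=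
        hS q hq
      apply cg_pol a hq11 hq12 hq13
      intro j
      rw [Ideal.mem_span_singleton]
      have e0 : (q : 𝓞 F) ∣ ((W * Q : ℕ) : 𝓞 F) := by
        have e3 : q ∣ W * Q := by
          rw [hQ]
          exact Dvd.dvd.mul_left (Finset.dvd_prod_of_mem (fun q => q) hq) W
        exact Nat.cast_dvd_cast e3
      have e1 : (q : 𝓞 F) ∣ a j - A j := dvd_trans e0 (haR j)
      have e2 : a j - (P q).coeff j = (a j - A j) + (A j - (P q).coeff j) := by ring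
      rw [e2]
      exact dvd_add e1 (hA2 j q hq)
    refine ⟨ht_pol haB, hone, hcon, fun 𝔭 hp hb hPd => ?_⟩
    obtain ⟨v, hv⟩ : ∃ v : HeightOneSpectrum (𝓞 F), v.asIdeal = 𝔭 := ⟨⟨𝔭, hp, hb⟩, rfl⟩
    subst hv
    have hPd' : dis a ∈ v.asIdeal ^ 2 := hPd
    have hPd1 : Pool.Agent.N352.PF.dsc 1 (pol a) ∈ v.asIdeal :=
      Ideal.pow_le_self two_ne_zero hPd
    haveI : Finite (𝓞 F ⧸ v.asIdeal) := v.asIdeal.finiteQuotientOfFreeOfNeBot v.ne_bot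
    haveI : IsDomain (𝓞 F ⧸ v.asIdeal) := Ideal.Quotient.isDomain v.asIdeal
    have hPW : (W : 𝓞 F) ∉ v.asIdeal := by
      intro hd
      refine Pool.Agent.N195.PF.dscp F 1 v (pol a) f₁ le_rfl (pol_monic a) (pol_natDegree a) ?_
        (hsep v hd) hPd1
      intro j
      exact (Ideal.span_singleton_le_iff_mem _).2 hd (hone j)
    have hPS : ∀ q ∈ S, (q : 𝓞 F) ∉ v.asIdeal := by
      intro q hq hd
      obtain ⟨hq1, hq2, hq3, hq4, hq5, hq6, hq7, hq8, hq9, hq10, hq11, hq12, hq13, hq14, hq15⟩ :=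
        hS q hq
      have hc : ∀ j, (pol a).coeff j - (P q).coeff j ∈ v.asIdeal := fun j =>
        (Ideal.span_singleton_le_iff_mem _).2 hd (hcon q hq j)
      by_cases hv : v.asIdeal = 𝔮 q
      · refine Pool.Agent.N195.PF.dscp F 1 v (pol a) (X * r q) le_rfl (pol_monic a)
          (pol_natDegree a) ?_ ?_ hPd1
        · intro j
          have e1 : (pol a).coeff j - (X * r q).coeff j =
              ((pol a).coeff j - (P q).coeff j) + ((P q).coeff j - (X * r q).coeff j) := by ring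
          rw [e1]
          refine Ideal.add_mem _ (hc j) ?_
          rw [hv]
          exact hq14 j
        · have e1 : rv v (X * r q) = X * rv v (r q) := by
            rw [rv, rv, Polynomial.map_mul, Polynomial.map_X]
          rw [e1]
          have e2 : Irreducible (rv v (r q)) := by
            have e3 : Irreducible (rd v.asIdeal (r q)) := by
              rw [hv]
              exact hq10
            exact e3
          refine sep_X_mul e2 ?_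
          rw [rv, hq8.natDegree_map, hq9]
          omega
      · refine Pool.Agent.N195.PF.dscp F 1 v (pol a) (P q) le_rfl (pol_monic a)
          (pol_natDegree a) hc ?_ hPd1
        exact sep_of_irr (hq15 v.asIdeal v.isPrime hd hv)
    have hPQ : ((W * Q : ℕ) : 𝓞 F) ∉ v.asIdeal := by
      intro hd
      rw [Nat.cast_mul] at hd
      rcases v.isPrime.mem_or_mem hd with hd | hd
      · exact hPW hd
      · rw [hQ, Nat.cast_prod] at hd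
        obtain ⟨q, hq, hqm⟩ := (Ideal.IsPrime.prod_mem_iff (hp := v.isPrime)).1 hd
        exact hPS q hq hqm
    have hsmall : ∀ n : ℕ, 0 < n → (n : 𝓞 F) ∈ v.asIdeal →
        (∀ p : ℕ, p.Prime → p ∣ n → p ≤ max p₀ (max M (2 * 1 + 1))) → False := by
      intro n hn hm hle
      obtain ⟨p, hp1, hp2, hp3⟩ := prime_factor v.asIdeal v.isPrime n hn hm
      have e1 := hW p hp1 (hle p hp1 hp2)
      apply hPW
      obtain ⟨m, hm⟩ := e1
      rw [hm, Nat.cast_mul]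
      exact Ideal.mul_mem_right _ _ hp3
    have hfac : ((2 * 1 + 1).factorial : 𝓞 F) ∉ v.asIdeal := by
      intro hd
      refine hsmall _ (Nat.factorial_pos _) hd fun p hp hpd => ?_
      exact ((hp.dvd_factorial).1 hpd).trans ((le_max_right _ _).trans (le_max_right _ _))
    have hPM1 : M < nv v := by
      by_contra hc
      have hnv2 : 2 ≤ nv v := (h7 F).2.2 v
      refine hsmall (nv v) (by omega) (Ideal.absNorm_mem v.asIdeal) fun p hp hpd => ?_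
      have e1 := Nat.le_of_dvd (by omega) hpd
      exact (e1.trans (not_lt.1 hc)).trans ((le_max_left _ _).trans (le_max_right _ _))
    have hBP : B ^ dg F ≤ nv v ^ 2 := by
      by_contra hc
      exact ha1 ⟨haU, v, hPM1, not_le.1 hc, hPQ, hPd'⟩
    refine ⟨hBP, Pool.Agent.N935.PF.WK.wk F 1 v le_rfl hfac a hPd' fun hD => ?_⟩
    exact ha2 ⟨haB, v, hBP, hPd1, hD⟩
  have key2 : ∀ a ∈ U, a ∉ U1 → a ∉ U2 → pol a ∉ LB → pol a ∉ Bd → GdP W K T 𝔮 P ε (pol a) := by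
    intro a haU ha1 ha2 h1 h2
    have hfa : Fam 1 B W f₁ S P (pol a) := key a haU ha1 ha2
    have hirr : Irreducible (Pool.Agent.N783.PF.fF (pol a)) :=
      Pool.Agent.N667.PF.irr F 1 W f₁ (pol a) hgood hfa.one hfa.ht.mon hfa.ht.deg
    have hsq : SqF 1 (pol a) := hsqf B N W f₁ S 𝔮 r P (pol a) hκW hgood hS hfa hirr hNa hb1 h1
    refine ⟨hfa.ht.mon, hfa.ht.deg, hfa.ht.tr, hirr, hsq, small_of hgood hΨ hp7 hfa.ht.mon
      hfa.ht.deg hfa.one, ⟨f₁, hgood, hfa.one⟩, ?_, hBd _ hfa.ht hsq hfa.con h2⟩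
    rw [hSd]
    exact hfa.con
  have hsub : {a ∈ U | ¬ GdP W K T 𝔮 P ε (pol a)} ⊆
      (U1 ∪ U2) ∪ ((pol ⁻¹' LB) ∪ (pol ⁻¹' Bd)) := by
    rintro a ⟨haU, ha⟩
    by_contra hc
    simp only [Set.mem_union, not_or] at hc
    exact ha (key2 a haU hc.1.1 hc.1.2 hc.2.1 hc.2.2)
  have hLf : ((pol : (Fin (2 * 1) → 𝓞 F) → (𝓞 F)[X]) ⁻¹' LB).Finite :=
    hfin1.preimage pol_inj.injOn
  have hBf : ((pol : (Fin (2 * 1) → 𝓞 F) → (𝓞 F)[X]) ⁻¹' Bd).Finite :=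
    hfin2.preimage pol_inj.injOn
  have hL1 : ((pol : (Fin (2 * 1) → 𝓞 F) → (𝓞 F)[X]) ⁻¹' LB).ncard ≤ LB.ncard := by
    rw [← Set.ncard_image_of_injective _ pol_inj]
    exact Set.ncard_le_ncard (Set.image_preimage_subset _ _) hfin1
  have hB1 : ((pol : (Fin (2 * 1) → 𝓞 F) → (𝓞 F)[X]) ⁻¹' Bd).ncard ≤ Bd.ncard := by
    rw [← Set.ncard_image_of_injective _ pol_inj]
    exact Set.ncard_le_ncard (Set.image_preimage_subset _ _) hfin2
  have hc1 : ({a ∈ U | ¬ GdP W K T 𝔮 P ε (pol a)}.ncard : ℝ) ≤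
      ((U1.ncard : ℝ) + U2.ncard) + (LB.ncard + Bd.ncard) := by
    have e1 := Set.ncard_le_ncard hsub ((hU1f.union hU2f).union (hLf.union hBf))
    have e2 := Set.ncard_union_le (U1 ∪ U2) ((pol ⁻¹' LB) ∪ (pol ⁻¹' Bd))
    have e3 := Set.ncard_union_le U1 U2
    have e4 := Set.ncard_union_le ((pol : (Fin (2 * 1) → 𝓞 F) → (𝓞 F)[X]) ⁻¹' LB) (pol ⁻¹' Bd)
    have e5 : {a ∈ U | ¬ GdP W K T 𝔮 P ε (pol a)}.ncard ≤
        (U1.ncard + U2.ncard) + (LB.ncard + Bd.ncard) := by omega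
    exact_mod_cast e5
  have eW : ((W * Q : ℕ) : ℝ) ^ (2 * 1 * dg F) = (W : ℝ) ^ (2 * 1 * dg F) * Pi1 F S := by
    unfold Pi1
    rw [Finset.prod_pow, ← hQ]
    push_cast
    rw [mul_pow]
    congr 1
    rw [← pow_mul]
  have hcardr : (U.ncard : ℝ) * ((W * Q : ℕ) : ℝ) ^ (2 * 1 * dg F) ≤ C₁ * (B : ℝ) ^ De F := by
    exact_mod_cast hcard
  have d1 : (U1.ncard : ℝ) * ((W * Q : ℕ) : ℝ) ^ (2 * 1 * dg F) ≤ δ / 4 * (B : ℝ) ^ De F := by
    calc (U1.ncard : ℝ) * ((W * Q : ℕ) : ℝ) ^ (2 * 1 * dg F)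
        ≤ (δ / (4 * C₁) * U.ncard) * ((W * Q : ℕ) : ℝ) ^ (2 * 1 * dg F) :=
          mul_le_mul_of_nonneg_right hsml hmr.le
      _ = δ / (4 * C₁) * (U.ncard * ((W * Q : ℕ) : ℝ) ^ (2 * 1 * dg F)) := by ring
      _ ≤ δ / (4 * C₁) * (C₁ * (B : ℝ) ^ De F) :=
          mul_le_mul_of_nonneg_left hcardr (by positivity)
      _ = δ / 4 * (B : ℝ) ^ De F := by field_simp
  have d2 : (U2.ncard : ℝ) * ((W * Q : ℕ) : ℝ) ^ (2 * 1 * dg F) ≤ δ / 4 * (B : ℝ) ^ De F := by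
    calc (U2.ncard : ℝ) * ((W * Q : ℕ) : ℝ) ^ (2 * 1 * dg F)
        ≤ (δ / (4 * ((W * Q : ℕ) : ℝ) ^ (2 * 1 * dg F)) * (B : ℝ) ^ De F) *
          ((W * Q : ℕ) : ℝ) ^ (2 * 1 * dg F) :=
          mul_le_mul_of_nonneg_right hstr hmr.le
      _ = δ / 4 * (B : ℝ) ^ De F := by field_simp
  have d3 : (LB.ncard : ℝ) * ((W * Q : ℕ) : ℝ) ^ (2 * 1 * dg F) ≤ δ / 4 * (B : ℝ) ^ De F := by
    have h1 : (2 : ℝ) ^ S.card * Pi1 F S * (LB.ncard : ℝ) ≤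
        Cb * 2 ^ (Module.finrank ℚ F * (2 * N * dd 1)) := by
      unfold Pi1
      exact_mod_cast hcard1
    have h2 := h1.trans (mul_le_mul_of_nonneg_left (pow_bound hNb) (Nat.cast_nonneg Cb))
    have h3 : (2 : ℝ) ^ s ≤ 2 ^ S.card := pow_le_pow_right₀ (by norm_num) hsS
    have h4 : 4 * (W : ℝ) ^ (2 * 1 * dg F) * (Cb * (4 * 2 ^ κ : ℝ) ^ De F) ≤ δ * 2 ^ S.card := by
      rw [div_lt_iff₀ hδ] at hs
      nlinarith
    have h5 : (0 : ℝ) < 2 ^ S.card := by positivity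
    have h6 : (0 : ℝ) ≤ (B : ℝ) ^ De F := by positivity
    have h8 : (2 : ℝ) ^ S.card * ((LB.ncard : ℝ) * ((W * Q : ℕ) : ℝ) ^ (2 * 1 * dg F)) ≤
        2 ^ S.card * (δ / 4 * (B : ℝ) ^ De F) := by
      rw [eW]
      calc _ = (W : ℝ) ^ (2 * 1 * dg F) * ((2 : ℝ) ^ S.card * Pi1 F S * (LB.ncard : ℝ)) := by ring
        _ ≤ (W : ℝ) ^ (2 * 1 * dg F) * (Cb * ((4 * 2 ^ κ) ^ De F * (B : ℝ) ^ De F)) :=
            mul_le_mul_of_nonneg_left h2 hWr.le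
        _ = ((W : ℝ) ^ (2 * 1 * dg F) * (Cb * (4 * 2 ^ κ : ℝ) ^ De F)) * (B : ℝ) ^ De F := by ring
        _ ≤ (δ / 4 * 2 ^ S.card) * (B : ℝ) ^ De F :=
            mul_le_mul_of_nonneg_right (by linarith) h6
        _ = _ := by ring
    exact le_of_mul_le_mul_left h8 h5
  have d4 : (Bd.ncard : ℝ) * ((W * Q : ℕ) : ℝ) ^ (2 * 1 * dg F) ≤ δ / 4 * (B : ℝ) ^ De F := by
    rw [eW]
    calc (Bd.ncard : ℝ) * ((W : ℝ) ^ (2 * 1 * dg F) * Pi1 F S)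
        = (W : ℝ) ^ (2 * 1 * dg F) * (Pi1 F S * (Bd.ncard : ℝ)) := by ring
      _ ≤ (W : ℝ) ^ (2 * 1 * dg F) * ((∑ k ∈ Finset.range K, η k) * (B : ℝ) ^ De F) :=
          mul_le_mul_of_nonneg_left hcard2 hWr.le
      _ ≤ (W : ℝ) ^ (2 * 1 * dg F) * ((δ / (4 * (W : ℝ) ^ (2 * 1 * dg F))) * (B : ℝ) ^ De F) := by
          refine mul_le_mul_of_nonneg_left ?_ hWr.le
          exact mul_le_mul_of_nonneg_right hηs (by positivity)
      _ = δ / 4 * (B : ℝ) ^ De F := by field_simp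
  have := mul_le_mul_of_nonneg_right hc1 hmr.le
  nlinarith

end Pool.Agent.Run7.h245.MO
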