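import Pool.Agent.Run7.h245.MO.Mo
import Pool.Agent.Run7.h216.MO.MOM

/-!
# Moments over the twists of one curve
-/

set_option autoImplicit false
set_option linter.all false

open Polynomial IsDedekindDomain Matrix NumberField WithZero
open scoped Classical

namespace Pool.Agent.Run7.h245.MO

open Pool.Agent.N951.PF
open Pool.Agent.N874.PP (Ev Sq1 U0)
open Pool.Agent.N352.PJ (dd pol dis Dy D2)
open Pool.Agent.N783.PF
open Pool.Agent.Run7.h245.SR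

/-- The levels as subsets of the type `S`. -/
noncomputable def Ts (S : Finset ℕ) (T : ℕ → Finset ℕ) (j : ℕ) : Finset S :=
  Finset.univ.filter fun i : S => (i : ℕ) ∈ T j

theorem mem_Ts {S : Finset ℕ} {T : ℕ → Finset ℕ} {j : ℕ} {i : S} : i ∈ Ts S T j ↔ (i : ℕ) ∈ T j := by
  unfold Ts
  rw [Finset.mem_filter]
  exact and_iff_right (Finset.mem_univ _)

theorem card_Ts {S : Finset ℕ} {T : ℕ → Finset ℕ} {j : ℕ} (h : T j ⊆ S) (p : ℕ → Prop) :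
    ((Ts S T j).filter fun i : S => p (i : ℕ)).card = ((T j).filter p).card := by
  refine Finset.card_bij (fun i _ => (i : ℕ)) ?_ ?_ ?_
  · intro i hi
    rw [Finset.mem_filter, mem_Ts] at hi
    exact Finset.mem_filter.2 hi
  · intro i _ j _ h
    exact Subtype.ext h
  · intro q hq
    rw [Finset.mem_filter] at hq
    exact ⟨⟨q, h hq.1⟩, Finset.mem_filter.2 ⟨mem_Ts.2 hq.1, hq.2⟩, rfl⟩

theorem card_Ts' {S : Finset ℕ} {T : ℕ → Finset ℕ} {j : ℕ} (h : T j ⊆ S) :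
    (Ts S T j).card = (T j).card := by
  have := card_Ts h (fun _ => True)
  simpa using this

theorem jn_insert {S : Finset ℕ} (x : S) (J : Finset S) :
    Jn S (insert x J) = insert (x : ℕ) (Jn S J) := by
  unfold Jn
  rw [Finset.map_insert]
  rfl

theorem jn_inj {S : Finset ℕ} : Function.Injective (Jn S) := fun J J' h =>
  Finset.map_injective _ h

theorem mem_jj_succ {ι : Type} [inst : DecidableEq ι] (T : ℕ → Finset ι) (n : ℕ) (J : Finset ι) :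
    J ∈ JJ T (n + 1) ↔ ∃ J' ∈ JJ T n, ∃ x ∈ T (n + 1), insert x J' = J := by
  have e : inst = fun a b => Classical.propDecidable (a = b) := Subsingleton.elim _ _
  subst e
  rw [JJ, Finset.mem_image]
  constructor
  · rintro ⟨⟨J₁, x⟩, hx, h⟩
    rw [Finset.mem_product] at hx
    exact ⟨J₁, hx.1, x, hx.2, h⟩
  · rintro ⟨J₁, h1, x, h2, h⟩
    exact ⟨(J₁, x), Finset.mem_product.2 ⟨h1, h2⟩, h⟩

theorem jj_ts {S : Finset ℕ} {T : ℕ → Finset ℕ} (n : ℕ) (h : ∀ j, 1 ≤ j → j ≤ n → T j ⊆ S) :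
    (JJ (Ts S T) n).image (Jn S) = JJ T n := by
  induction n with
  | zero =>
    show (({∅} : Finset (Finset S)).image (Jn S)) = {∅}
    rw [Finset.image_singleton]
    rfl
  | succ n ih =>
    have ih' := ih fun j h1 h2 => h j h1 (by omega)
    ext J
    rw [Finset.mem_image]
    constructor
    · rintro ⟨J', hJ', rfl⟩
      rw [mem_jj_succ] at hJ'
      obtain ⟨J₁, h1, x, h2, rfl⟩ := hJ'
      rw [jn_insert, mem_jj_succ]
      refine ⟨Jn S J₁, ?_, x, mem_Ts.1 h2, rfl⟩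
      rw [← ih']
      exact Finset.mem_image_of_mem _ h1
    · intro hJ
      rw [mem_jj_succ] at hJ
      obtain ⟨J₁, h1, x, h2, rfl⟩ := hJ
      rw [← ih', Finset.mem_image] at h1
      obtain ⟨J₂, h3, h4⟩ := h1
      have hxS : x ∈ S := h (n + 1) (by omega) le_rfl h2
      refine ⟨insert ⟨x, hxS⟩ J₂, ?_, ?_⟩
      · rw [mem_jj_succ]
        exact ⟨J₂, h3, ⟨x, hxS⟩, mem_Ts.2 h2, rfl⟩
      · rw [jn_insert, h4]

theorem jj_sum {S : Finset ℕ} {T : ℕ → Finset ℕ} (n : ℕ) (h : ∀ j, 1 ≤ j → j ≤ n → T j ⊆ S)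
    (g : Finset ℕ → ℝ) : ∑ J ∈ JJ T n, g J = ∑ J ∈ JJ (Ts S T) n, g (Jn S J) := by
  rw [← jj_ts n h, Finset.sum_image fun a _ b _ hab => jn_inj hab]

theorem jj_card {S : Finset ℕ} {T : ℕ → Finset ℕ} (n : ℕ) (h : ∀ j, 1 ≤ j → j ≤ n → T j ⊆ S) :
    (JJ (Ts S T) n).card = (JJ T n).card := by
  rw [← jj_ts n h, Finset.card_image_of_injective _ jn_inj]

/-- The constants of `S_MOM` for given data. -/
def MomC (R n₀ : ℕ) (δ : ℝ) (k : ℕ) (ε : ℝ) : Prop :=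
  ∀ (ι : Type) [Fintype ι] (Λ : AddSubgroup (ι → ZMod 2 × ZMod 2)) (T : ℕ → Finset ι),
  (∀ l ∈ Λ, ∑ i, (l i).1 * (l i).2 = 0) →
  (∀ i ≤ k, ∀ j ≤ k, i ≠ j → Disjoint (T i) (T j)) →
  (∀ j, 1 ≤ j → j ≤ k → (T j).Nonempty) → (T 0).card ≤ n₀ →
  (∀ l ∈ Λ, (∀ i, (l i).1 = 0) → (∀ i ∈ T 0, (l i).2 = 0) → l = 0) →
  (∀ j, 1 ≤ j → j ≤ k → ∀ l ∈ Λ, l ≠ 0 → (∀ i, (∀ m < j, i ∉ T m) → (l i).1 = 0) →
    (((T j).filter fun i => (l i).2 = 0).card : ℝ) ≤ (1 / 2 + ε) * (T j).card) →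
  ∀ r ≤ R, ∑ J ∈ JJ T k, ∏ i ∈ Finset.range r, ((Nat.card (Sj Λ J) : ℝ) - 2 ^ i) ≤
    (2 ^ (r * (r + 1) / 2) + δ) * (JJ T k).card

/-- The moments over the twists of one curve. -/
theorem pmom {F : Type} [Field F] [NumberField F] {R n₀ k W : ℕ} {δ ε : ℝ}
    (hmom : MomC R n₀ δ k ε) {T : ℕ → Finset ℕ} {𝔮 : ℕ → Ideal (𝓞 F)} {r P : ℕ → (𝓞 F)[X]}
    {ε' : ℕ → ℝ} {f : (𝓞 F)[X]}
    (hS : GoodS 1 W ((Finset.range (k + 1)).biUnion T) 𝔮 r P)
    (hdj : ∀ i < k + 1, ∀ j < k + 1, i ≠ j → Disjoint (T i) (T j))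
    (hne : ∀ j < k + 1, (T j).Nonempty) (h0 : (T 0).card ≤ n₀)
    (hε0 : ε' 0 ≤ 1 / 4) (hεj : ∀ j, 1 ≤ j → j ≤ k → ε' j ≤ ε)
    (hf : GdP W (k + 1) T 𝔮 P ε' f) :
    ∃ d : Finset ℕ → ℕ, (∀ J ∈ JJ T k, SelCard (((f.coeff 1 : 𝓞 F) : F) * ((Dp J : ℕ) : F) ^ 2)
        (((f.coeff 0 : 𝓞 F) : F) * ((Dp J : ℕ) : F) ^ 3) (d J)) ∧
      ∀ r ≤ R, ∑ J ∈ JJ T k, ∏ i ∈ Finset.range r, ((2 : ℝ) ^ d J - 2 ^ i) ≤
        (2 ^ (r * (r + 1) / 2) + δ) * (JJ T k).card := by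
  obtain ⟨hm, hd, h2, hirr, hsq, hsm, hf₁, hcon, hP⟩ := hf
  obtain ⟨L, _, _, _, θ, hG⟩ := Pool.Agent.N667.PF.gen F 1 f hm hd hirr
  have hθ := theta_ne hG
  obtain ⟨S, hT⟩ : ∃ S, (Finset.range (k + 1)).biUnion T = S := ⟨_, rfl⟩
  have hTS : ∀ j < k + 1, T j ⊆ S := by
    intro j hj q hq
    rw [← hT]
    exact Finset.mem_biUnion.2 ⟨j, Finset.mem_range.2 hj, hq⟩
  have hTS' : ∀ j, 1 ≤ j → j ≤ k → T j ⊆ S := fun j _ hj => hTS j (by omega)
  rw [hT] at hS hcon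
  obtain ⟨𝔔, hQ⟩ := exists_Q exq le_rfl hG hsq hS hcon
  have hsqp : ∀ α, InM f θ S 𝔔 α → psi θ S 𝔔 α = 0 → IsSquare α := fun α hα hh =>
    sq_of_psi hG hT hQ (Nat.succ_pos k) (hP 0 (Nat.succ_pos k)) hε0
      (hne 0 (Nat.succ_pos k)).card_pos hα hh
  have hM := hmom S (Lam f hS hQ hθ) (Ts S T) ?_ ?_ ?_ ?_ ?_ ?_
  · have hpow : ∀ J : Finset S, ∃ e : ℕ, Nat.card (Sj (Lam f hS hQ hθ) J) = 2 ^ e := fun J =>
      WALK.pow_two _
    choose e he using hpow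
    have hex : ∀ J : Finset ℕ, ∃ e' : ℕ, ∀ J' : Finset S, Jn S J' = J → e' = e J' := by
      intro J
      by_cases h : ∃ J' : Finset S, Jn S J' = J
      · obtain ⟨J', rfl⟩ := h
        exact ⟨e J', fun J'' h' => by rw [jn_inj h']⟩
      · exact ⟨0, fun J' h' => absurd ⟨J', h'⟩ h⟩
    choose d hd' using hex
    refine ⟨d, ?_, ?_⟩
    · intro J hJ
      rw [← jj_ts k hTS', Finset.mem_image] at hJ
      obtain ⟨J', -, rfl⟩ := hJ
      rw [hd' _ J' rfl]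
      exact sel_Jn loc loccF hG hsq h2 hirr hsm hf₁ hS hcon hQ hθ hsqp (he J')
    · intro r hr
      rw [jj_sum k hTS', ← jj_card k hTS']
      refine le_trans (le_of_eq ?_) (hM r hr)
      refine Finset.sum_congr rfl fun J _ => ?_
      refine Finset.prod_congr rfl fun i _ => ?_
      rw [hd' _ J rfl, he J]
      push_cast
      rfl
  · rintro _ ⟨α, hα, rfl⟩
    exact psi_iso rec le_rfl hG hsq hS hcon hQ hα
  · intro i hi j hj hij
    rw [Finset.disjoint_left]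
    intro x hx hx'
    exact Finset.disjoint_left.1 (hdj i (by omega) j (by omega) hij) (mem_Ts.1 hx) (mem_Ts.1 hx')
  · intro j _ hj
    obtain ⟨q, hq⟩ := hne j (by omega)
    exact ⟨⟨q, hTS j (by omega) hq⟩, mem_Ts.2 hq⟩
  · rw [card_Ts' (hTS 0 (Nat.succ_pos k))]
    exact h0
  · rintro _ ⟨α, hα, rfl⟩ h1 h3
    by_contra hne'
    have hns : ¬ IsSquare α := by
      rintro ⟨s, rfl⟩
      exact hne' (psi_self hS hQ hθ (left_ne_zero_of_mul hα.ne))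
    have hall : ∀ q ∈ S, Ev (𝔔 q) α := fun q hq => (psi_fst α ⟨q, hq⟩).1 (h1 ⟨q, hq⟩)
    have h4 := pr_InM hG hT hQ (Nat.succ_pos k) (hP 0 (Nat.succ_pos k)) hα hns
      (fun q hq _ => hall q hq)
    have h5 : ((T 0).filter fun q => Sq1 (𝔔 q) α) = T 0 := by
      rw [Finset.filter_eq_self]
      intro q hq
      have hqS := hTS 0 (Nat.succ_pos k) hq
      have h6 := h3 ⟨q, hqS⟩ (mem_Ts.2 hq)
      exact ((psi_snd α ⟨q, hqS⟩).1 h6).1 (hall q hqS)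
    rw [h5] at h4
    have h7 : (1 : ℝ) ≤ (T 0).card := by exact_mod_cast (hne 0 (Nat.succ_pos k)).card_pos
    nlinarith
  · rintro j hj1 hj _ ⟨α, hα, rfl⟩ hne' hz
    have hns : ¬ IsSquare α := by
      rintro ⟨s, rfl⟩
      exact hne' (psi_self hS hQ hθ (left_ne_zero_of_mul hα.ne))
    have hz' : ∀ q ∈ S, q ∉ (Finset.range j).biUnion T → Ev (𝔔 q) α := by
      intro q hq hqk
      refine (psi_fst α ⟨q, hq⟩).1 (hz ⟨q, hq⟩ fun m hm hmem => hqk ?_)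
      exact Finset.mem_biUnion.2 ⟨m, Finset.mem_range.2 hm, mem_Ts.1 hmem⟩
    have h1 := pr_InM hG hT hQ (by omega : j < k + 1) (hP j (by omega)) hα hns hz'
    rw [card_Ts' (hTS j (by omega))]
    have h3 : (((Ts S T j).filter fun i => (psi θ S 𝔔 α i).2 = 0).card : ℝ) ≤
        (((T j).filter fun q => Sq1 (𝔔 q) α).card : ℝ) := by
      rw [← card_Ts (S := S) (hTS j (by omega)) fun q => Sq1 (𝔔 q) α]
      refine Nat.cast_le.2 (Finset.card_le_card fun i hi => ?_)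
      rw [Finset.mem_filter] at hi ⊢
      refine ⟨hi.1, ?_⟩
      have hij : (i : ℕ) ∈ T j := mem_Ts.1 hi.1
      have hev : Ev (𝔔 i) α := by
        refine hz' i i.2 fun hmem => ?_
        obtain ⟨m, hm, hmi⟩ := Finset.mem_biUnion.1 hmem
        rw [Finset.mem_range] at hm
        exact Finset.disjoint_left.1 (hdj m (by omega) j (by omega) (by omega)) hmi hij
      exact ((psi_snd α i).1 hi.2).1 hev
    refine (h3.trans h1).trans (mul_le_mul_of_nonneg_right ?_ (Nat.cast_nonneg _))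
    have := hεj j hj1 hj
    linarith

end Pool.Agent.Run7.h245.MO
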