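import Pool.Agent.Run7.h245.MO.Pq
import Pool.Agent.Run7.h245.MO.Lw
import Pool.Agent.Run7.h216.MO.WIN
import Pool.Agent.Run7.h688.MO.SHL
import Pool.Agent.Run7.h688.MO.ASM

/-!
# Moments in a family of all curves: assembly
-/

set_option autoImplicit false
set_option linter.all false

open Polynomial IsDedekindDomain Matrix NumberField WithZero
open scoped Classical

namespace Pool.Agent.Run7.h245.MO

open Pool.Agent.N951.PF
open Pool.Agent.N874.PP (sW)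
open Pool.Agent.N352.PJ (dd pol dis Dy D2)
open Pool.Agent.N352.PF (dg Bal nv rv Bz Bx S_BX)
open Pool.Agent.N783.PF (Bd Cg sp rd Ht GoodS GoodF Fam S_FAM LBad SqF Dp Min fF)
open Pool.Agent.Run7.h245.SR

/-! ### The index set -/

theorem dp_insert {x : ℕ} {J : Finset ℕ} (h : x ∉ J) : Dp (insert x J) = x * Dp J := by
  unfold Dp
  rw [Finset.prod_insert h]

theorem mem_jj {T : ℕ → Finset ℕ} {n : ℕ} {J : Finset ℕ} (hJ : J ∈ JJ T n) {q : ℕ} (hq : q ∈ J) :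
    ∃ m, 1 ≤ m ∧ m ≤ n ∧ q ∈ T m := by
  induction n generalizing J with
  | zero =>
    have h1 : J ∈ ({∅} : Finset (Finset ℕ)) := hJ
    rw [Finset.mem_singleton] at h1
    rw [h1] at hq
    exact absurd hq (Finset.notMem_empty q)
  | succ n ih =>
    rw [mem_jj_succ] at hJ
    obtain ⟨J', h1, x, h2, rfl⟩ := hJ
    rcases Finset.mem_insert.1 hq with h | h
    · exact ⟨n + 1, by omega, le_rfl, h ▸ h2⟩
    · obtain ⟨m, m1, m2, m3⟩ := ih h1 h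
      exact ⟨m, m1, by omega, m3⟩

theorem jj_sub {T : ℕ → Finset ℕ} {k : ℕ} {J : Finset ℕ} (hJ : J ∈ JJ T k) :
    J ⊆ (Finset.range (k + 1)).biUnion T := by
  intro q hq
  obtain ⟨m, -, h2, h3⟩ := mem_jj hJ hq
  exact Finset.mem_biUnion.2 ⟨m, Finset.mem_range.2 (by omega), h3⟩

theorem jj_nonempty {T : ℕ → Finset ℕ} {k : ℕ} (n : ℕ) (hn : n ≤ k)
    (h : ∀ j < k + 1, (T j).Nonempty) : (JJ T n).Nonempty := by
  induction n with
  | zero => exact ⟨∅, Finset.mem_singleton_self _⟩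
  | succ n ih =>
    obtain ⟨J, hJ⟩ := ih (by omega)
    obtain ⟨x, hx⟩ := h (n + 1) (by omega)
    exact ⟨insert x J, (mem_jj_succ T n _).2 ⟨J, hJ, x, hx, rfl⟩⟩

theorem jj_ratio {T : ℕ → Finset ℕ} {k : ℕ} {ρ : ℝ} (hρ : 0 ≤ ρ)
    (hdj : ∀ i < k + 1, ∀ j < k + 1, i ≠ j → Disjoint (T i) (T j))
    (hw : ∀ j, 1 ≤ j → j < k + 1 → Win ρ (T j)) (n : ℕ) (hn : n ≤ k) :
    ∀ J ∈ JJ T n, ∀ J' ∈ JJ T n, ((Dp J : ℕ) : ℝ) ≤ (1 + ρ) ^ n * ((Dp J' : ℕ) : ℝ) := by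
  have hnot : ∀ n, n < k → ∀ J ∈ JJ T n, ∀ x ∈ T (n + 1), x ∉ J := by
    intro n hn J hJ x hx h
    obtain ⟨m, m1, m2, m3⟩ := mem_jj hJ h
    exact Finset.disjoint_left.1 (hdj m (by omega) (n + 1) (by omega) (by omega)) m3 hx
  induction n with
  | zero =>
    intro J hJ J' hJ'
    have h1 : J ∈ ({∅} : Finset (Finset ℕ)) := hJ
    have h2 : J' ∈ ({∅} : Finset (Finset ℕ)) := hJ'
    rw [Finset.mem_singleton] at h1 h2
    rw [h1, h2, pow_zero, one_mul]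
  | succ n ih =>
    intro J hJ J' hJ'
    rw [mem_jj_succ] at hJ hJ'
    obtain ⟨J₁, h1, x, h2, rfl⟩ := hJ
    obtain ⟨J₁', h1', x', h2', rfl⟩ := hJ'
    rw [dp_insert (hnot n (by omega) J₁ h1 x h2), dp_insert (hnot n (by omega) J₁' h1' x' h2')]
    rw [Nat.cast_mul, Nat.cast_mul]
    have e1 := ih (by omega) J₁ h1 J₁' h1'
    have e2 := hw (n + 1) (by omega) (by omega) x h2 x' h2'
    calc (x : ℝ) * (Dp J₁ : ℝ) ≤ ((1 + ρ) * x') * ((1 + ρ) ^ n * (Dp J₁' : ℝ)) :=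
          mul_le_mul e2 e1 (Nat.cast_nonneg _) (by positivity)
      _ = (1 + ρ) ^ (n + 1) * (x' * (Dp J₁' : ℝ)) := by ring

/-! ### The twist -/

variable {F : Type} [Field F] [NumberField F]

/-- The twist of a pair. -/
def twp (J : Finset ℕ) (p : 𝓞 F × 𝓞 F) : 𝓞 F × 𝓞 F :=
  (p.1 * ((Dp J : ℕ) : 𝓞 F) ^ 2, p.2 * ((Dp J : ℕ) : 𝓞 F) ^ 3)

theorem twp_hg {J : Finset ℕ} (hD : 0 < Dp J) (p : 𝓞 F × 𝓞 F) (X : ℝ) :
    twp J p ∈ Hg X ↔ p ∈ Hg (X / ((Dp J : ℕ) : ℝ) ^ 6) := by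
  have hDr : (0 : ℝ) < ((Dp J : ℕ) : ℝ) ^ 6 := by
    have : (0 : ℝ) < ((Dp J : ℕ) : ℝ) := by exact_mod_cast hD
    positivity
  refine forall_congr' fun σ => ?_
  have e1 : ‖σ ((twp J p).1 : F)‖ = ‖σ (p.1 : F)‖ * ((Dp J : ℕ) : ℝ) ^ 2 := by
    have : ((twp J p).1 : F) = (p.1 : F) * ((Dp J : ℕ) : F) ^ 2 := by
      show algebraMap (𝓞 F) F (p.1 * ((Dp J : ℕ) : 𝓞 F) ^ 2) = _
      rw [map_mul, map_pow, map_natCast]
    rw [this, map_mul, norm_mul, map_pow, norm_pow, map_natCast, Complex.norm_natCast]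
  have e2 : ‖σ ((twp J p).2 : F)‖ = ‖σ (p.2 : F)‖ * ((Dp J : ℕ) : ℝ) ^ 3 := by
    have : ((twp J p).2 : F) = (p.2 : F) * ((Dp J : ℕ) : F) ^ 3 := by
      show algebraMap (𝓞 F) F (p.2 * ((Dp J : ℕ) : 𝓞 F) ^ 3) = _
      rw [map_mul, map_pow, map_natCast]
    rw [this, map_mul, norm_mul, map_pow, norm_pow, map_natCast, Complex.norm_natCast]
  rw [e1, e2, le_div_iff₀ hDr, le_div_iff₀ hDr]
  have e3 : 4 * (‖σ (p.1 : F)‖ * ((Dp J : ℕ) : ℝ) ^ 2) ^ 3 =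
      4 * ‖σ (p.1 : F)‖ ^ 3 * ((Dp J : ℕ) : ℝ) ^ 6 := by ring
  have e4 : 27 * (‖σ (p.2 : F)‖ * ((Dp J : ℕ) : ℝ) ^ 3) ^ 2 =
      27 * ‖σ (p.2 : F)‖ ^ 2 * ((Dp J : ℕ) : ℝ) ^ 6 := by ring
  rw [e3, e4]

theorem hg_mono {X Y : ℝ} (h : X ≤ Y) : (Hg X : Set (𝓞 F × 𝓞 F)) ⊆ Hg Y := fun p hp σ =>
  ⟨(hp σ).1.trans h, (hp σ).2.trans h⟩

/-- A prime of the system does not divide both coefficients. -/
theorem not_both {W : ℕ} {S : Finset ℕ} {𝔮 : ℕ → Ideal (𝓞 F)} {r P : ℕ → (𝓞 F)[X]}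
    (hS : GoodS 1 W S 𝔮 r P) {q : ℕ} (hq : q ∈ S) {a : Fin (2 * 1) → 𝓞 F}
    (hc : Cg (sp F q) (pol a) (P q)) (h1 : (q : 𝓞 F) ∣ a 1) (h0 : (q : 𝓞 F) ∣ a 0) : False := by
  obtain ⟨hq1, hq2, hq3, hq4, hq5, hq6, hq7, hq8, hq9, hq10, hq11, hq12, hq13, hq14, hq15⟩ := hS q hq
  haveI : (𝔮 q).IsPrime := hq6
  haveI : IsDomain (𝓞 F ⧸ 𝔮 q) := Ideal.Quotient.isDomain _
  have hmem : ∀ x : 𝓞 F, (q : 𝓞 F) ∣ x → x ∈ 𝔮 q := fun x hx => by
    obtain ⟨y, rfl⟩ := hx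
    exact Ideal.mul_mem_right _ _ hq7
  have hspq : ∀ x : 𝓞 F, x ∈ sp F q → x ∈ 𝔮 q := fun x hx =>
    hmem x (Ideal.mem_span_singleton.1 hx)
  have e1 : rd (𝔮 q) (X * r q) = X ^ 3 := by
    have g1 : ∀ j, Ideal.Quotient.mk (𝔮 q) ((X * r q).coeff j) =
        Ideal.Quotient.mk (𝔮 q) ((pol a).coeff j) := by
      intro j
      rw [Ideal.Quotient.eq]
      have g2 := hspq _ (hc j)
      have g3 := hq14 j
      have g4 : (X * r q).coeff j - (pol a).coeff j =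
          -(((pol a).coeff j - (P q).coeff j) + ((P q).coeff j - (X * r q).coeff j)) := by ring
      rw [g4]
      exact neg_mem (add_mem g2 g3)
    have g5 : rd (𝔮 q) (X * r q) = rd (𝔮 q) (pol a) := by
      refine Polynomial.ext fun j => ?_
      rw [rd, rd, coeff_map, coeff_map]
      exact g1 j
    rw [g5]
    have g6 : (pol a) = X ^ 3 + (C (a 1) * X + C (a 0)) := by
      unfold pol
      rw [Fin.sum_univ_two]
      simp only [Fin.isValue, Fin.val_zero, Fin.val_one, pow_zero, pow_one, mul_one]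
      ring
    rw [g6, rd, Polynomial.map_add, Polynomial.map_add, Polynomial.map_mul, map_C, map_C, map_X,
      Polynomial.map_pow, map_X, Ideal.Quotient.eq_zero_iff_mem.2 (hmem _ h1),
      Ideal.Quotient.eq_zero_iff_mem.2 (hmem _ h0)]
    simp
  have e2 : rd (𝔮 q) (r q) = X ^ 2 := by
    have g1 : (X : (𝓞 F ⧸ 𝔮 q)[X]) * rd (𝔮 q) (r q) = X * X ^ 2 := by
      have g2 : rd (𝔮 q) (X * r q) = X * rd (𝔮 q) (r q) := by
        rw [rd, rd, Polynomial.map_mul, map_X]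
      rw [← g2, e1]
      ring
    exact mul_left_cancel₀ X_ne_zero g1
  rw [e2] at hq10
  exact hq10.not_isUnit (by
    have h3 := hq10.isUnit_or_isUnit (pow_two X)
    rcases h3 with h3 | h3 <;> exact absurd h3 not_isUnit_X)

theorem dvd_of {q n : ℕ} (hq : q.Prime) (hn : ¬ q ∣ n) {x : 𝓞 F} {e : ℕ}
    (h : (q : 𝓞 F) ∣ x * (n : 𝓞 F) ^ e) : (q : 𝓞 F) ∣ x := by
  have hc : IsCoprime (q : ℤ) (n : ℤ) := by
    rw [Nat.isCoprime_iff_coprime]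
    exact (Nat.Prime.coprime_iff_not_dvd hq).2 hn
  have hc' : IsCoprime (q : 𝓞 F) (n : 𝓞 F) := by
    have := hc.map (Int.castRingHom (𝓞 F))
    simpa using this
  exact (hc'.pow_right (n := e)).dvd_of_dvd_mul_right h

/-- The twists are different. -/
theorem twp_inj {W k : ℕ} {T : ℕ → Finset ℕ} {𝔮 : ℕ → Ideal (𝓞 F)} {r P : ℕ → (𝓞 F)[X]}
    (hS : GoodS 1 W ((Finset.range (k + 1)).biUnion T) 𝔮 r P) {C : Set (𝓞 F × 𝓞 F)}
    (hC : ∀ p ∈ C, ∀ q ∈ (Finset.range (k + 1)).biUnion T, Cg (sp F q) (pol (cf p)) (P q))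
    {J J' : Finset ℕ} (hJ : J ∈ JJ T k) (hJ' : J' ∈ JJ T k) {p p' : 𝓞 F × 𝓞 F} (hp : p ∈ C)
    (hp' : p' ∈ C) (h : twp J p = twp J' p') : J = J' ∧ p = p' := by
  have key : ∀ {J J' : Finset ℕ} {p p' : 𝓞 F × 𝓞 F}, J ∈ JJ T k → J' ∈ JJ T k → p' ∈ C →
      twp J p = twp J' p' → J ⊆ J' := by
    intro J J' p p' hJ hJ' hp' h q hq
    by_contra hqn
    have hqS := jj_sub hJ hq
    have hqp := (hS q hqS).1
    have hnd : ¬ q ∣ Dp J' := by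
      intro hd
      unfold Dp at hd
      obtain ⟨q', hq', hdd⟩ := (Prime.dvd_finset_prod_iff hqp.prime _).1 hd
      have e := (Nat.prime_dvd_prime_iff_eq hqp (hS q' (jj_sub hJ' hq')).1).1 hdd
      subst e
      exact hqn hq'
    have hqD : (q : 𝓞 F) ∣ ((Dp J : ℕ) : 𝓞 F) := by
      have : q ∣ Dp J := by
        unfold Dp
        exact Finset.dvd_prod_of_mem (fun q => q) hq
      exact Nat.cast_dvd_cast this
    have h1 : (q : 𝓞 F) ∣ p'.1 := by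
      refine dvd_of hqp hnd (e := 2) ?_
      have e1 := congrArg Prod.fst h
      have e2 : p'.1 * ((Dp J' : ℕ) : 𝓞 F) ^ 2 = p.1 * ((Dp J : ℕ) : 𝓞 F) ^ 2 := e1.symm
      rw [e2]
      exact Dvd.dvd.mul_left (dvd_pow hqD two_ne_zero) _
    have h2 : (q : 𝓞 F) ∣ p'.2 := by
      refine dvd_of hqp hnd (e := 3) ?_
      have e1 := congrArg Prod.snd h
      have e2 : p'.2 * ((Dp J' : ℕ) : 𝓞 F) ^ 3 = p.2 * ((Dp J : ℕ) : 𝓞 F) ^ 3 := e1.symm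
      rw [e2]
      exact Dvd.dvd.mul_left (dvd_pow hqD three_ne_zero) _
    exact not_both hS hqS (hC p' hp' q hqS) h1 h2
  have e : J = J' := Finset.Subset.antisymm (key hJ hJ' hp' h) (key hJ' hJ hp h.symm)
  subst e
  refine ⟨rfl, ?_⟩
  have hD : ((Dp J : ℕ) : 𝓞 F) ≠ 0 := by
    have : Dp J ≠ 0 := by
      unfold Dp
      rw [Finset.prod_ne_zero_iff]
      exact fun q hq => (hS q (jj_sub hJ hq)).1.ne_zero
    exact_mod_cast this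
  have h1 : p.1 * ((Dp J : ℕ) : 𝓞 F) ^ 2 = p'.1 * ((Dp J : ℕ) : 𝓞 F) ^ 2 := congrArg Prod.fst h
  have h2 : p.2 * ((Dp J : ℕ) : 𝓞 F) ^ 3 = p'.2 * ((Dp J : ℕ) : 𝓞 F) ^ 3 := congrArg Prod.snd h
  exact Prod.ext (mul_right_cancel₀ (pow_ne_zero 2 hD) h1)
    (mul_right_cancel₀ (pow_ne_zero 3 hD) h2)

end Pool.Agent.Run7.h245.MO
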