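import Pool.Agent.Run7.h245.SR.Defs
import Pool.Agent.Run7.h245.MO.Iface

/-!
# Project MO: interface, second part
-/

set_option autoImplicit false
set_option linter.all false

open NumberField
open scoped Classical

namespace Pool.Agent.Run7.h245.MO

open Pool.Agent.Run7.h245.SR (Sj Sel2 SelCoc SelEqv)
open Pool.Agent.TH115.GD (Pt act rs IsCoc LocTriv Comp Sep)
open Pool.Agent.N874.PP (sW)

/-- RK. The rank is at most the dimension of the 2-Selmer group.

Proof. Let `M` be the group of points over `F`. For `P ∈ M` choose `Q` over `Sep F` with `2 Q = P` (the points over `Sep F` are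
2-divisible, in characteristic zero; this is used in the files on 2-descent, e.g. `N713/QM/GFC.lean`, `Run7/h245/SR/SELD.lean`,
`Run7/h245/SR/KUM.lean`, `N459/QM/FinC.lean`). The cocycle `c_P : σ ↦ σ Q - Q` is continuous, has values in the points of order two, and is
locally trivial (take the image of `Q` over the separable closure of the completion), so it gives an element of `Sel2`. If
`c_P` and `c_P'` are equivalent, `(σ Q - Q) - (σ Q' - Q') = σ T - T` with `2 T = 0`, then `Q - Q' - T` is Galois invariant, hence comes
from a point `R ∈ M`, and `P - P' = 2 R`. So `|M / 2 M| ≤ |Sel2| = 2 ^ d` (`Sel2` is finite, as `Nat.card` is not zero).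
`M` is finitely generated (`Pool.Agent.Q286.EQ.mordell_weil` or so, `Q286/EQ/MW.lean`); for a finitely generated abelian group `M`
of rank `n` the group `M / 2 M` has at least `2 ^ n` elements (map onto `(M / torsion) / 2`, or: `n` linearly independent
elements...; the quotient by the torsion is free of rank `n`). So `n ≤ d`. -/
def S_RK : Prop := ∀ (F : Type) [Field F] [NumberField F] (A B : F) (d : ℕ), 4 * A ^ 3 + 27 * B ^ 2 ≠ 0 →
  Nat.card (Sel2 F (sW A B)) = 2 ^ d → Module.finrank ℤ (sW A B).toAffine.Point ≤ d

end Pool.Agent.Run7.h245.MO
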