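import Pool.Agent.Run7.h245.MO.Tr
import Pool.Agent.Run7.h245.SR.Final
import Pool.Agent.Run7.h245.SR.Ar

/-!
# Almost all curves of a residue class: all 2-Selmer dimensions
-/

set_option autoImplicit false
set_option linter.all false

open Polynomial IsDedekindDomain Matrix NumberField WithZero
open scoped Classical

namespace Pool.Agent.Run7.h245.MO

open Pool.Agent.N951.PF
open Pool.Agent.N352.PJ (dd pol dis Dy D2)
open Pool.Agent.N352.PF (dg Bal nv rv Bz Bx S_BX)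
open Pool.Agent.N783.PF (Bd Cg sp rd Ht GoodS GoodF Fam S_FAM LBad SqF Dp Min fF)
open Pool.Agent.Run7.h245.SR
open Pool.Agent.N874.PP (sW)
open Pool.Agent.N874.QM (SelC ShaC IsLoc)
open Pool.Agent.TH115.GD (Pt)

theorem dp_empty : Dp (∅ : Finset ℕ) = 1 := by
  unfold Dp
  simp

theorem prAt_mono {F : Type} [Field F] [NumberField F] {g : ℕ} {f : (𝓞 F)[X]}
    {𝔮 : ℕ → Ideal (𝓞 F)} {S T : Finset ℕ} {ε ε' : ℝ} (h : PrAt g f 𝔮 S T ε) (hε : ε ≤ ε') :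
    PrAt g f 𝔮 S T ε' := by
  intro L _ _ _ θ hG α h1 h2 h3 h4
  refine (h L θ hG α h1 h2 h3 h4).trans ?_
  exact mul_le_mul_of_nonneg_right (by linarith) (Nat.cast_nonneg _)

/-- The good polynomials: minimal, with all dimensions up to `N` among the twists by the divisors of `m`. -/
structure QM {F : Type} [Field F] [NumberField F] (N m : ℕ) (f : (𝓞 F)[X]) : Prop where
  irr : Irreducible (fF f)
  min : Min 1 f
  all : ∀ d ≤ N, ∃ D : ℕ, D ≠ 0 ∧ D ∣ m ∧ SelCard (((f.coeff 1 : 𝓞 F) : F) * (D : F) ^ 2)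
    (((f.coeff 0 : 𝓞 F) : F) * (D : F) ^ 3) d

theorem moA (F : Type) [Field F] [NumberField F] (N : ℕ) (δ : ℝ) (hδ : 0 < δ) :
    ∃ (m : ℕ) (A : Fin (2 * 1) → 𝓞 F) (B₀ : ℕ), 0 < m ∧ ∀ B ≥ B₀,
      ({a ∈ Bx 1 B m A | ¬ QM N m (pol a)}.ncard : ℝ) * (m : ℝ) ^ (2 * 1 * dg F) ≤
        δ * (B : ℝ) ^ De F := by
  obtain ⟨W, s, η₁, hW0, hη₁, hcnt⟩ := cnt F δ hδ
  obtain ⟨K, n₀, ε, hε, htw⟩ := twdNF F N
  obtain ⟨η, hη⟩ : ∃ η : ℕ → ℝ, η = fun _ => η₁ / (K + 2) := ⟨_, rfl⟩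
  obtain ⟨ε', hε'⟩ : ∃ ε' : ℕ → ℝ, ε' = fun _ => min ε (1 / 4) := ⟨_, rfl⟩
  obtain ⟨n₁, hn₁⟩ : ∃ n₁ : ℕ → ℕ, n₁ = fun _ => max n₀ s := ⟨_, rfl⟩
  have hηp : ∀ k, 0 < η k := fun k => by rw [hη]; positivity
  obtain ⟨T, Wk, 𝔮, r, P, H, -⟩ := lvx_ext (F := F) prx levb Pool.Agent.N710.PF.exs hηp
    (fun k => by rw [hε']; exact lt_min hε (by norm_num))
    (fun k => by rw [hε']; exact lt_of_le_of_lt (min_le_right _ _) (by norm_num))
    (lvx_zero (F := F) (η := η) (ε := ε') (n₀ := n₁) (W₀ := W)) (K + 1) (Nat.zero_le _)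
  have hcard : ∀ k < K + 1, n₁ k ≤ (T k).card := fun k hk => (H.dat k hk).big
  obtain ⟨A, B₀, hB₀⟩ := hcnt (K + 1) T Wk 𝔮 r P η ε' n₁ H hηp
    (by
      rw [hη, Finset.sum_const, Finset.card_range, nsmul_eq_mul]
      push_cast
      rw [mul_div_assoc', div_le_iff₀ (by positivity)]
      nlinarith)
    (by
      have h1 := hcard 0 (Nat.succ_pos K)
      rw [hn₁] at h1
      refine ((le_max_right _ _).trans h1).trans (Finset.card_le_card ?_)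
      exact fun q hq => Finset.mem_biUnion.2 ⟨0, Finset.mem_range.2 (Nat.succ_pos K), hq⟩)
  have hsubK : (Finset.range K).biUnion T ⊆ (Finset.range (K + 1)).biUnion T :=
    Finset.biUnion_subset_biUnion_of_subset_left _ (Finset.range_mono (Nat.le_succ K))
  have hgood := H.good_all
  refine ⟨W * ∏ q ∈ (Finset.range (K + 1)).biUnion T, q, A, B₀,
    Nat.mul_pos hW0 (Finset.prod_pos fun q hq => (hgood q hq).1.pos), fun B hB => ?_⟩
  obtain ⟨hfin, hbd⟩ := hB₀ B hB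
  refine le_trans (mul_le_mul_of_nonneg_right ?_ (by positivity)) hbd
  refine Nat.cast_le.2 (Set.ncard_le_ncard ?_ (hfin.subset fun a ha => ha.1))
  rintro a ⟨ha1, ha2⟩
  refine ⟨ha1, fun hg => ha2 ?_⟩
  obtain ⟨g1, g2, g3, g4, g5, g6, g7, g8, g9⟩ := hg
  refine ⟨g4, ?_, ?_⟩
  · have h1 := Pool.Agent.N547.PF.min 1 W F _ ∅ 𝔮 r P (pol a) le_rfl hgood g5 g1 g2 g8
      (Finset.empty_subset _)
    rw [dp_empty, Nat.cast_one] at h1
    rwa [Polynomial.scaleRoots_one] at h1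
  · intro d hd
    obtain ⟨J, hJ, hsel⟩ := htw W T 𝔮 r P (pol a) (fun q hq => hgood q (hsubK hq))
      (fun k hk => by
        have h1 := hcard k (by omega)
        rw [hn₁] at h1
        exact (le_max_left _ _).trans h1)
      (fun i hi j hj hij => H.disj i (by omega) j (by omega) hij) g1 g2 g3 g4 g5 g6 g7
      (fun q hq => g8 q (hsubK hq))
      (fun k hk => by
        have h1 := g9 k (by omega)
        rw [hε'] at h1
        exact prAt_mono h1 (min_le_left _ _)) d hd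
    refine ⟨Dp J, ?_, ?_, hsel⟩
    · rw [Dp, Finset.prod_ne_zero_iff]
      exact fun q hq => (hgood q (hsubK (hJ hq))).1.ne_zero
    · refine Dvd.dvd.mul_left ?_ W
      exact Finset.prod_dvd_prod_of_subset _ _ _ (hJ.trans hsubK)

/-- The property of the pairs. -/
structure QN {F : Type} [Field F] [NumberField F] (N m : ℕ) (p : 𝓞 F × 𝓞 F) : Prop where
  disc : 4 * p.1 ^ 3 + 27 * p.2 ^ 2 ≠ 0
  min : ∀ 𝔭 : Ideal (𝓞 F), 𝔭.IsPrime → 𝔭 ≠ ⊥ → ¬ (p.1 ∈ 𝔭 ^ 4 ∧ p.2 ∈ 𝔭 ^ 6)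
  all : ∀ d ≤ N, ∃ D : ℕ, D ≠ 0 ∧ D ∣ m ∧
    Nat.card (Sel2 F (sW ((p.1 : F) * (D : F) ^ 2) ((p.2 : F) * (D : F) ^ 3))) = 2 ^ d ∧
    (d = 0 → Finite (Pt (sW ((p.1 : F) * (D : F) ^ 2) ((p.2 : F) * (D : F) ^ 3)) F) ∧
      Odd (Nat.card (Pt (sW ((p.1 : F) * (D : F) ^ 2) ((p.2 : F) * (D : F) ^ 3)) F)) ∧
      ShaC (sW ((p.1 : F) * (D : F) ^ 2) ((p.2 : F) * (D : F) ^ 3)))

theorem qn_of {F : Type} [Field F] [NumberField F] {N m : ℕ} {a : Fin (2 * 1) → 𝓞 F}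
    (h : QM N m (pol a)) : QN N m (a 1, a 0) := by
  have c1 : (pol a).coeff 1 = a 1 := pol_coeff_lt a 1
  have c0 : (pol a).coeff 0 = a 0 := pol_coeff_lt a 0
  have c2 : (pol a).coeff 2 = 0 := pol_coeff_tr (g := 1) a
  have hirr : Irreducible (cb ((a 1 : 𝓞 F) : F) ((a 0 : 𝓞 F) : F)) := by
    have h1 := fF_cub (pol_monic a) (pol_natDegree a) c2
    rw [c1, c0] at h1
    rw [← h1]
    exact h.irr
  refine ⟨?_, ?_, ?_⟩
  · intro h0
    refine disc_cb hirr ?_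
    have h1 := congrArg (algebraMap (𝓞 F) F) h0
    rw [map_add, map_mul, map_mul, map_pow, map_pow, map_ofNat, map_ofNat, map_zero] at h1
    exact h1
  · rintro 𝔭 hp hb ⟨h1, h2⟩
    refine h.min 𝔭 hp hb fun j hj => ?_
    interval_cases j
    · rw [c0]
      exact h2
    · rw [c1]
      exact h1
    · rw [c2]
      exact Ideal.zero_mem _
  · intro d hd
    obtain ⟨D, h1, h2, h3⟩ := h.all d hd
    rw [c1, c0] at h3
    have hD : (D : F) ≠ 0 := Nat.cast_ne_zero.2 h1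
    have hirrD := irr_cb hD hirr
    refine ⟨D, h1, h2, seld F _ _ d (disc_cb hirrD) hirrD h3, ?_⟩
    rintro rfl
    exact triv_of seld hirrD h3

/-- Almost all pairs of a residue class. -/
theorem moF (F : Type) [Field F] [NumberField F] (N : ℕ) (δ : ℝ) (hδ : 0 < δ) :
    ∃ (m : ℕ) (A B : 𝓞 F), 0 < m ∧ ∀ᶠ X : ℝ in Filter.atTop,
      (Cl m A B ∩ Hg X).Finite ∧ 0 < (Cl m A B ∩ Hg X).ncard ∧
      (1 - δ) * ((Cl m A B ∩ Hg X).ncard : ℝ) ≤ ((Cl m A B ∩ Hg X ∩ {p | QN N m p}).ncard : ℝ) := by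
  obtain ⟨C, hC, htr⟩ := trans F
  obtain ⟨m, A, B₀, hm, h⟩ := moA F N (δ / C) (by positivity)
  refine ⟨m, A 1, A 0, hm, ?_⟩
  have h1 := htr m A {p | ¬ QN N m p} (δ / C) B₀ hm (by positivity) (fun B hB => by
    refine le_trans (mul_le_mul_of_nonneg_right ?_ (by positivity)) (h B hB)
    refine Nat.cast_le.2 (Set.ncard_le_ncard ?_ ?_)
    · rintro a ⟨ha1, ha2⟩
      exact ⟨ha1, fun hq => ha2 (qn_of hq)⟩
    · obtain ⟨C₁, -, hBX⟩ := Pool.Agent.N352.PF.bxT F 1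
      by_cases hB2 : C₁ * m ≤ B
      · exact (hBX B m A hm hB2).1.subset fun a ha => ha.1
      · refine ((hBX (C₁ * m + B) m A hm (by omega)).1.subset ?_)
        rintro a ⟨⟨ha1, ha2⟩, -⟩
        refine ⟨fun j σ => (ha1 j σ).trans ?_, ha2⟩
        exact_mod_cast Nat.pow_le_pow_left (by omega) _)
  filter_upwards [h1] with X hX
  obtain ⟨f1, f2, f3⟩ := hX
  refine ⟨f1, f2, ?_⟩
  have e1 : C * (δ / C) = δ := by field_simp
  rw [e1] at f3
  have e2 : (Cl m (A 1) (A 0) ∩ Hg X).ncard ≤ (Cl m (A 1) (A 0) ∩ Hg X ∩ {p | ¬ QN N m p}).ncard +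
      (Cl m (A 1) (A 0) ∩ Hg X ∩ {p | QN N m p}).ncard := by
    refine le_trans (Set.ncard_le_ncard ?_ ((f1.subset Set.inter_subset_left).union
      (f1.subset Set.inter_subset_left))) (Set.ncard_union_le _ _)
    intro p hp
    by_cases hq : QN N m p
    · exact Or.inr ⟨hp, hq⟩
    · exact Or.inl ⟨hp, hq⟩
  have e3 : ((Cl m (A 1) (A 0) ∩ Hg X).ncard : ℝ) ≤
      ((Cl m (A 1) (A 0) ∩ Hg X ∩ {p | ¬ QN N m p}).ncard : ℝ) +
      ((Cl m (A 1) (A 0) ∩ Hg X ∩ {p | QN N m p}).ncard : ℝ) := by exact_mod_cast e2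
  linarith

end Pool.Agent.Run7.h245.MO
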