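import Pool.Agent.Run7.h245.MO.As2
import Pool.Agent.Run7.h245.MO.Iface2

/-!
# Tails in a family of all curves
-/

set_option autoImplicit false
set_option linter.all false

open NumberField
open scoped Classical

namespace Pool.Agent.Run7.h245.MO

open Pool.Agent.Run7.h216.MO (Ip Ip_nonneg Ip_mono)
open Pool.Agent.N874.PP (sW)

/-- The bound for the proportion of dimension at least `s`. -/
noncomputable def tb (s : ℕ) : ℝ := ∏ j ∈ Finset.Ico 2 (s + 1), 2 / ((2 : ℝ) ^ j - 1)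

theorem tb_succ (s : ℕ) (hs : 1 ≤ s) : tb (s + 1) = tb s * (2 / ((2 : ℝ) ^ (s + 1) - 1)) := by
  unfold tb
  rw [Finset.prod_Ico_succ_top (by omega)]

theorem tb_one : tb 1 = 1 := by
  unfold tb
  simp

theorem tb_pos (s : ℕ) : 0 < tb s := by
  unfold tb
  refine Finset.prod_pos fun j hj => ?_
  have h2 : 2 ≤ j := (Finset.mem_Ico.1 hj).1
  have : (1 : ℝ) < 2 ^ j := one_lt_pow₀ (by norm_num) (by omega)
  have : (0 : ℝ) < 2 ^ j - 1 := by linarith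
  positivity

/-- `∏_{i < s} (2^(s+1) - 2^i)` is `2^(s(s+1)/2) / tb (s+1)`. -/
theorem ip_tb (s : ℕ) : Ip s (2 ^ (s + 1)) * tb (s + 1) = 2 ^ (s * (s + 1) / 2) := by
  induction s with
  | zero => rw [zero_add, tb_one]; simp [Ip]
  | succ s ih =>
    have e1 : Ip (s + 1) ((2 : ℝ) ^ (s + 1 + 1)) = 2 ^ s * (2 * 2 ^ (s + 1) - 1) * Ip s (2 ^ (s + 1)) := by
      have := Pool.Agent.Run7.h216.MO.Ip_double s ((2 : ℝ) ^ (s + 1))
      rw [← this]
      congr 1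
      ring
    have e2 : (s + 1) * (s + 1 + 1) / 2 = s * (s + 1) / 2 + (s + 1) := by
      have : (s + 1) * (s + 1 + 1) = s * (s + 1) + (s + 1) * 2 := by ring
      rw [this, Nat.add_mul_div_right _ _ (by norm_num)]
    rw [e1, tb_succ (s + 1) (by omega), e2, pow_add (2 : ℝ) (s * (s + 1) / 2) (s + 1), ← ih]
    have h1 : (1 : ℝ) < 2 ^ (s + 1 + 1) := one_lt_pow₀ (by norm_num) (by omega)
    have h2 : (2 : ℝ) ^ (s + 1 + 1) - 1 ≠ 0 := by linarith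
    have h3 : (2 : ℝ) * 2 ^ (s + 1) - 1 = 2 ^ (s + 1 + 1) - 1 := by ring
    rw [h3]
    field_simp
    ring

/-- Tails from a moment. -/
theorem tail {α : Type} (U G : Set α) (hU : U.Finite) (hG : G ⊆ U) {δ : ℝ} (hδ : 0 ≤ δ)
    (hcard : (1 - δ) * (U.ncard : ℝ) ≤ (G.ncard : ℝ)) (d : α → ℕ) (s : ℕ) (hs : 1 ≤ s)
    (hm : ∑ᶠ p ∈ G, Ip (s - 1) (2 ^ d p) ≤ (2 ^ ((s - 1) * (s - 1 + 1) / 2) + δ) * (U.ncard : ℝ))
    (rk : α → ℕ) (hrk : ∀ p ∈ G, rk p ≤ d p) :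
    (({p ∈ U | s ≤ rk p}.ncard : ℕ) : ℝ) ≤ (tb s + 2 * δ) * (U.ncard : ℝ) := by
  obtain ⟨n, rfl⟩ : ∃ n, s = n + 1 := ⟨s - 1, by omega⟩
  rw [Nat.add_sub_cancel] at hm
  have hGf : G.Finite := hU.subset hG
  obtain ⟨V, hV⟩ : ∃ V : Set α, V = {p ∈ G | n + 1 ≤ d p} := ⟨_, rfl⟩
  have hVG : V ⊆ G := by rw [hV]; exact fun p hp => hp.1
  have hVf : V.Finite := hGf.subset hVG
  -- the members of `V`
  have h1 : (V.ncard : ℝ) * Ip n (2 ^ (n + 1)) ≤ ∑ᶠ p ∈ G, Ip n (2 ^ d p) := by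
    rw [finsum_mem_eq_finite_toFinset_sum _ hGf, Set.ncard_eq_toFinset_card _ hVf]
    have hsub : hVf.toFinset ⊆ hGf.toFinset := by
      intro p hp
      rw [Set.Finite.mem_toFinset] at hp ⊢
      exact hVG hp
    refine le_trans ?_ (Finset.sum_le_sum_of_subset_of_nonneg hsub fun p _ _ => Ip_nonneg n (d p))
    rw [← nsmul_eq_mul, ← Finset.sum_const]
    refine Finset.sum_le_sum fun p hp => ?_
    rw [Set.Finite.mem_toFinset, hV] at hp
    exact Ip_mono n (n + 1) (d p) hp.2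
  have hIp : 0 < Ip n ((2 : ℝ) ^ (n + 1)) := by
    have h2 := ip_tb n
    have h3 := tb_pos (n + 1)
    by_contra hcon
    have h4 : Ip n ((2 : ℝ) ^ (n + 1)) * tb (n + 1) ≤ 0 :=
      mul_nonpos_of_nonpos_of_nonneg (not_lt.1 hcon) h3.le
    rw [h2] at h4
    have : (0 : ℝ) < 2 ^ (n * (n + 1) / 2) := by positivity
    linarith
  have hIp1 : 1 ≤ Ip n ((2 : ℝ) ^ (n + 1)) := by
    unfold Ip
    rw [← Finset.prod_const_one (s := Finset.range n)]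
    refine Finset.prod_le_prod (fun _ _ => zero_le_one) fun i hi => ?_
    have hi' := Finset.mem_range.1 hi
    have h2 : (2 : ℝ) ^ (i + 1) ≤ 2 ^ (n + 1) := pow_le_pow_right₀ (by norm_num) (by omega)
    have h3 : (1 : ℝ) ≤ 2 ^ i := one_le_pow₀ (by norm_num)
    rw [pow_succ] at h2
    linarith
  have hVle : (V.ncard : ℝ) ≤ (tb (n + 1) + δ) * (U.ncard : ℝ) := by
    have hU0 : (0 : ℝ) ≤ (U.ncard : ℝ) := Nat.cast_nonneg _
    have h3 : (V.ncard : ℝ) * Ip n (2 ^ (n + 1)) ≤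
        ((tb (n + 1) + δ) * (U.ncard : ℝ)) * Ip n (2 ^ (n + 1)) := by
      refine (h1.trans hm).trans ?_
      rw [← ip_tb n]
      have h4 : δ * (U.ncard : ℝ) ≤ δ * (U.ncard : ℝ) * Ip n (2 ^ (n + 1)) :=
        le_mul_of_one_le_right (mul_nonneg hδ hU0) hIp1
      nlinarith
    exact le_of_mul_le_mul_right h3 hIp
  have hcov : {p ∈ U | n + 1 ≤ rk p} ⊆ V ∪ (U \ G) := by
    rintro p ⟨hp, hr⟩
    by_cases hpG : p ∈ G
    · left
      rw [hV]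
      exact ⟨hpG, hr.trans (hrk p hpG)⟩
    · exact Or.inr ⟨hp, hpG⟩
  have hcc : ({p ∈ U | n + 1 ≤ rk p}.ncard : ℝ) ≤ (V.ncard : ℝ) + ((U \ G).ncard : ℝ) := by
    have h5 := Set.ncard_le_ncard hcov (hVf.union (hU.subset Set.diff_subset))
    have h6 := Set.ncard_union_le V (U \ G)
    exact_mod_cast h5.trans h6
  have hdiff : ((U \ G).ncard : ℝ) ≤ δ * (U.ncard : ℝ) := by
    have h7 := Set.ncard_diff_add_ncard_of_subset hG hU
    have h8 : ((U \ G).ncard : ℝ) + (G.ncard : ℝ) = (U.ncard : ℝ) := by exact_mod_cast h7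
    linarith
  calc ({p ∈ U | n + 1 ≤ rk p}.ncard : ℝ) ≤ (V.ncard : ℝ) + ((U \ G).ncard : ℝ) := hcc
    _ ≤ (tb (n + 1) + δ) * (U.ncard : ℝ) + δ * (U.ncard : ℝ) := add_le_add hVle hdiff
    _ = (tb (n + 1) + 2 * δ) * (U.ncard : ℝ) := by ring

end Pool.Agent.Run7.h245.MO
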