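import Pool.Agent.Run7.h245.MO.Iface
import Pool.Agent.Run7.h245.MO.Cn

/-!
# From boxes to heights
-/

set_option autoImplicit false
set_option linter.all false

open Polynomial IsDedekindDomain Matrix NumberField WithZero
open scoped Classical

namespace Pool.Agent.Run7.h245.MO

open Pool.Agent.N951.PF
open Pool.Agent.N352.PJ (dd pol dis Dy D2)
open Pool.Agent.N352.PF (dg Bal nv rv Bz Bx S_BX)
open Pool.Agent.N783.PF (Bd Cg sp rd Ht GoodS GoodF Fam S_FAM LBad SqF)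
open Pool.Agent.Run7.h245.SR

variable {F : Type} [Field F] [NumberField F]

/-- The coefficients of a pair. -/
def cf (p : 𝓞 F × 𝓞 F) : Fin (2 * 1) → 𝓞 F := ![p.2, p.1]

theorem cf_inj : Function.Injective (cf : 𝓞 F × 𝓞 F → Fin (2 * 1) → 𝓞 F) := by
  intro p p' h
  have h0 := congrFun h 0
  have h1 := congrFun h 1
  exact Prod.ext h1 h0

theorem cf_mk (a : Fin (2 * 1) → 𝓞 F) : cf (a 1, a 0) = a := by
  funext j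
  fin_cases j
  · rfl
  · rfl

theorem hg_bx {m B : ℕ} {A : Fin (2 * 1) → 𝓞 F} {X : ℝ} (hX : X ≤ (B : ℝ) ^ 6) {p : 𝓞 F × 𝓞 F}
    (h1 : p ∈ Cl m (A 1) (A 0)) (h2 : p ∈ Hg X) : cf p ∈ Bx 1 B m A := by
  refine ⟨fun j => ?_, fun j => ?_⟩
  · intro σ
    obtain ⟨h3, h4⟩ := h2 σ
    fin_cases j
    · show ‖σ (p.2 : F)‖ ≤ ((B ^ (2 * 1 + 1 - 0) : ℕ) : ℝ)
      have h5 : ‖σ (p.2 : F)‖ ^ 2 ≤ ((B : ℝ) ^ 3) ^ 2 := by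
        have := norm_nonneg (σ (p.2 : F))
        nlinarith [sq_nonneg ‖σ (p.2 : F)‖]
      have h6 := (pow_le_pow_iff_left₀ (norm_nonneg _) (by positivity) two_ne_zero).1 h5
      simpa using h6
    · show ‖σ (p.1 : F)‖ ≤ ((B ^ (2 * 1 + 1 - 1) : ℕ) : ℝ)
      have h5 : ‖σ (p.1 : F)‖ ^ 3 ≤ ((B : ℝ) ^ 2) ^ 3 := by
        have h7 : 0 ≤ ‖σ (p.1 : F)‖ ^ 3 := by positivity
        nlinarith
      have h6 := (pow_le_pow_iff_left₀ (norm_nonneg _) (by positivity) three_ne_zero).1 h5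
      simpa using h6
  · fin_cases j
    · exact h1.2
    · exact h1.1

theorem bx_hg {m B : ℕ} {A : Fin (2 * 1) → 𝓞 F} {X : ℝ} (hX : 27 * (B : ℝ) ^ 6 ≤ X)
    {a : Fin (2 * 1) → 𝓞 F} (h : a ∈ Bx 1 B m A) : (a 1, a 0) ∈ Cl m (A 1) (A 0) ∩ Hg X := by
  refine ⟨⟨h.2 1, h.2 0⟩, fun σ => ⟨?_, ?_⟩⟩
  · have h1 : ‖σ ((a 1 : 𝓞 F) : F)‖ ≤ (B : ℝ) ^ 2 := by
      have := h.1 1 σ
      simpa using this
    have h2 : ‖σ ((a 1 : 𝓞 F) : F)‖ ^ 3 ≤ ((B : ℝ) ^ 2) ^ 3 := pow_le_pow_left₀ (norm_nonneg _) h1 3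
    have h3 : (0 : ℝ) ≤ (B : ℝ) ^ 6 := by positivity
    show 4 * ‖σ ((a 1 : 𝓞 F) : F)‖ ^ 3 ≤ X
    nlinarith
  · have h1 : ‖σ ((a 0 : 𝓞 F) : F)‖ ≤ (B : ℝ) ^ 3 := by
      have := h.1 0 σ
      simpa using this
    have h2 : ‖σ ((a 0 : 𝓞 F) : F)‖ ^ 2 ≤ ((B : ℝ) ^ 3) ^ 2 := pow_le_pow_left₀ (norm_nonneg _) h1 2
    show 27 * ‖σ ((a 0 : 𝓞 F) : F)‖ ^ 2 ≤ X
    nlinarith

theorem six_near {X : ℝ} (hX : (10 : ℝ) ^ 6 ≤ X) : ∃ B B' : ℕ, X ≤ (B : ℝ) ^ 6 ∧ 27 * (B' : ℝ) ^ 6 ≤ X ∧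
    B ≤ 4 * B' ∧ X ≤ (B : ℝ) ^ 6 ∧ (X ^ ((1 : ℝ) / 6) ≤ B) := by
  have hX0 : 0 ≤ X := le_trans (by positivity) hX
  obtain ⟨y, hy⟩ : ∃ y, y = X ^ ((1 : ℝ) / 6) := ⟨_, rfl⟩
  have hy0 : 0 ≤ y := by rw [hy]; positivity
  have hy6 : y ^ 6 = X := by
    rw [hy, ← Real.rpow_natCast, ← Real.rpow_mul hX0]
    norm_num
  have hy10 : 10 ≤ y := by
    rw [← hy6] at hX
    exact (pow_le_pow_iff_left₀ (by norm_num) hy0 (by norm_num)).1 hX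
  have e1 : y ≤ ⌈y⌉₊ := Nat.le_ceil y
  have e2 : (⌈y⌉₊ : ℝ) < y + 1 := Nat.ceil_lt_add_one hy0
  have hyn : 0 ≤ y * (4 / 7) := by positivity
  have e3 : (⌊y * (4 / 7)⌋₊ : ℝ) ≤ y * (4 / 7) := Nat.floor_le hyn
  have e4 : y * (4 / 7) < ⌊y * (4 / 7)⌋₊ + 1 := Nat.lt_floor_add_one _
  refine ⟨⌈y⌉₊, ⌊y * (4 / 7)⌋₊, ?_, ?_, ?_, ?_, ?_⟩
  · rw [← hy6]
    exact pow_le_pow_left₀ hy0 e1 6
  · have h1 : ((⌊y * (4 / 7)⌋₊ : ℕ) : ℝ) ^ 6 ≤ (y * (4 / 7)) ^ 6 :=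
      pow_le_pow_left₀ (Nat.cast_nonneg _) e3 6
    have h2 : (y * (4 / 7)) ^ 6 = X * (4 / 7) ^ 6 := by rw [mul_pow, hy6]
    rw [h2] at h1
    have h3 : (4 / 7 : ℝ) ^ 6 * 27 ≤ 1 := by norm_num
    nlinarith
  · have : (⌈y⌉₊ : ℝ) ≤ 4 * ⌊y * (4 / 7)⌋₊ := by nlinarith
    exact_mod_cast this
  · rw [← hy6]
    exact pow_le_pow_left₀ hy0 e1 6
  · rw [← hy]
    exact e1

/-- The transfer. -/
theorem trans (F : Type) [Field F] [NumberField F] : ∃ C : ℝ, 0 < C ∧ ∀ (m : ℕ)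
    (A : Fin (2 * 1) → 𝓞 F) (Bad : Set (𝓞 F × 𝓞 F)) (δ : ℝ) (B₀ : ℕ), 0 < m → 0 ≤ δ →
    (∀ B ≥ B₀, ({a ∈ Bx 1 B m A | (a 1, a 0) ∈ Bad}.ncard : ℝ) * (m : ℝ) ^ (2 * 1 * dg F) ≤
      δ * (B : ℝ) ^ De F) →
    ∀ᶠ X : ℝ in Filter.atTop, (Cl m (A 1) (A 0) ∩ Hg X).Finite ∧
      0 < (Cl m (A 1) (A 0) ∩ Hg X).ncard ∧
      ((Cl m (A 1) (A 0) ∩ Hg X ∩ Bad).ncard : ℝ) ≤
        C * δ * ((Cl m (A 1) (A 0) ∩ Hg X).ncard : ℝ) := by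
  obtain ⟨C₁, hC₁, hBX⟩ := Pool.Agent.N352.PF.bxT F 1
  have hC0 : (0 : ℝ) < C₁ := by exact_mod_cast hC₁
  refine ⟨C₁ * 4 ^ De F, by positivity, ?_⟩
  intro m A Bad δ B₀ hm hδ hbad
  have hmr : (0 : ℝ) < (m : ℝ) ^ (2 * 1 * dg F) := by
    have : (0 : ℝ) < (m : ℝ) := by exact_mod_cast hm
    positivity
  filter_upwards [Filter.eventually_ge_atTop ((10 : ℝ) ^ 6),
    Filter.eventually_ge_atTop (((4 * (B₀ + C₁ * m) + 10 : ℕ) : ℝ) ^ 6)] with X hX1 hX2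
  obtain ⟨B, B', h1, h2, h3, -, h5⟩ := six_near hX1
  have hX0 : 0 ≤ X := le_trans (by positivity) hX1
  have hBbig : 4 * (B₀ + C₁ * m) + 10 ≤ B := by
    have e1 : ((4 * (B₀ + C₁ * m) + 10 : ℕ) : ℝ) ^ 6 ≤ (B : ℝ) ^ 6 := hX2.trans h1
    have e2 := (pow_le_pow_iff_left₀ (Nat.cast_nonneg _) (Nat.cast_nonneg _) (by norm_num)).1 e1
    exact_mod_cast e2
  have hB'1 : C₁ * m ≤ B' := by omega
  have hB'2 : 1 ≤ B' := by omega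
  obtain ⟨f1, f2, f3⟩ := hBX B m A hm (by omega)
  obtain ⟨g1, g2, g3⟩ := hBX B' m A hm hB'1
  have hsub : cf '' (Cl m (A 1) (A 0) ∩ Hg X) ⊆ Bx 1 B m A := by
    rintro _ ⟨p, ⟨hp1, hp2⟩, rfl⟩
    exact hg_bx h1 hp1 hp2
  have hfin : (Cl m (A 1) (A 0) ∩ Hg X).Finite :=
    Set.Finite.of_finite_image (f1.subset hsub) cf_inj.injOn
  have hlow : (Bx 1 B' m A).ncard ≤ (Cl m (A 1) (A 0) ∩ Hg X).ncard := by
    refine Set.ncard_le_ncard_of_injOn (fun a => (a 1, a 0)) (fun a ha => bx_hg h2 ha) ?_ hfin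
    intro a _ a' _ haa
    have e := congrArg cf haa
    simp only [cf_mk] at e
    exact e
  have hDe : De F = dg F * dd 1 := rfl
  have hlowr : (B' : ℝ) ^ De F ≤ C₁ * ((Cl m (A 1) (A 0) ∩ Hg X).ncard : ℝ) *
      (m : ℝ) ^ (2 * 1 * dg F) := by
    have e1 : (B' : ℝ) ^ De F ≤ C₁ * ((Bx 1 B' m A).ncard : ℝ) * (m : ℝ) ^ (2 * 1 * dg F) := by
      exact_mod_cast g2
    refine e1.trans ?_
    have e2 : ((Bx 1 B' m A).ncard : ℝ) ≤ ((Cl m (A 1) (A 0) ∩ Hg X).ncard : ℝ) := by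
      exact_mod_cast hlow
    gcongr
  have hpos : 0 < (Cl m (A 1) (A 0) ∩ Hg X).ncard := by
    rw [Nat.pos_iff_ne_zero]
    intro h0
    rw [h0] at hlowr
    have : (0 : ℝ) < (B' : ℝ) ^ De F := by
      have : (0 : ℝ) < (B' : ℝ) := by exact_mod_cast hB'2
      positivity
    simp at hlowr
    linarith
  refine ⟨hfin, hpos, ?_⟩
  have hb := hbad B (by omega)
  have hcard : (Cl m (A 1) (A 0) ∩ Hg X ∩ Bad).ncard ≤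
      {a ∈ Bx 1 B m A | (a 1, a 0) ∈ Bad}.ncard := by
    refine Set.ncard_le_ncard_of_injOn cf ?_ cf_inj.injOn (f1.subset fun a ha => ha.1)
    rintro p ⟨⟨hp1, hp2⟩, hp3⟩
    exact ⟨hg_bx h1 hp1 hp2, hp3⟩
  have hcardr : ((Cl m (A 1) (A 0) ∩ Hg X ∩ Bad).ncard : ℝ) ≤
      ({a ∈ Bx 1 B m A | (a 1, a 0) ∈ Bad}.ncard : ℝ) := by exact_mod_cast hcard
  have hBB : (B : ℝ) ^ De F ≤ 4 ^ De F * (B' : ℝ) ^ De F := by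
    rw [← mul_pow]
    have : (B : ℝ) ≤ 4 * B' := by exact_mod_cast h3
    gcongr
  refine le_of_mul_le_mul_right (a := (m : ℝ) ^ (2 * 1 * dg F)) ?_ hmr
  calc ((Cl m (A 1) (A 0) ∩ Hg X ∩ Bad).ncard : ℝ) * (m : ℝ) ^ (2 * 1 * dg F)
      ≤ ({a ∈ Bx 1 B m A | (a 1, a 0) ∈ Bad}.ncard : ℝ) * (m : ℝ) ^ (2 * 1 * dg F) := by gcongr
    _ ≤ δ * (B : ℝ) ^ De F := hb
    _ ≤ δ * (4 ^ De F * (C₁ * ((Cl m (A 1) (A 0) ∩ Hg X).ncard : ℝ) *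
      (m : ℝ) ^ (2 * 1 * dg F))) := by
        refine mul_le_mul_of_nonneg_left (hBB.trans ?_) hδ
        exact mul_le_mul_of_nonneg_left hlowr (by positivity)
    _ = _ := by ring

end Pool.Agent.Run7.h245.MO
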